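import Pool.Agent.KS6_31.AM.Lower

set_option autoImplicit false

/-!
The asymptotics of the ratio of the two weights.
-/

namespace Pool.Agent.KS6_31.AM

open Finset Filter Topology

theorem V0_ge (ω c : ℝ) (h0 : 0 < ω) (h1 : ω < 1) (hω : 1 - ω = Real.exp (-(2*ω)))
    (hc0 : 0 < c) (hc1 : c ≤ 1)
    (hc : ∀ x, 0 ≤ x → x ≤ ω → c * min x (ω - x) ≤ 1 - x - Real.exp (-(2*x)))
    (N n J L : ℕ) (hN : 2 ≤ N) (hJ0 : 1 ≤ J) (hJ : 4 * J * (2*J+1) + 1 ≤ N) (hωN : (n:ℝ) ≤ ω * N)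
    (hωN' : ω * N ≤ n + ω) (hJL : J + L ≤ n) (hL2 : 2 * L ≤ n) (hL : 2*(J:ℝ) + 4 ≤ (1-ω) * L)
    (hS : (Real.exp (-(c^2/16)))^J / (1 - Real.exp (-(c^2/16)))
      + n * Real.exp (-(c^2 * L^2/(16*n))) + Real.exp (-((1-ω)^2 * L^2/(16*n))) ≤ 1/2) :
    (ω^2*(1-ω)/4)^L / 4 ≤ V0 N n n 0 1 := by
  have hN0 : (0:ℝ) < N := by exact_mod_cast (by omega : 0 < N)
  have hN2 : (2:ℝ) ≤ N := by exact_mod_cast hN
  have hJ' : 2 * J + 1 ≤ N := by nlinarith
  have hnN : (n:ℝ) ≤ N := by nlinarith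
  have hnN' : n ≤ N := by exact_mod_cast hnN
  set κ := ω^2*(1-ω)/4 with hκ
  have hκ0 : 0 ≤ κ := by
    have : 0 < 1 - ω := by linarith
    positivity
  have hn1 : ω * N / 2 ≤ n := by nlinarith
  have hκ1 : κ ≤ (n:ℝ)^2/(N:ℝ)^2 := by
    rw [le_div_iff₀ (by positivity)]
    have e1 : (ω * N / 2)^2 ≤ (n:ℝ)^2 := pow_le_pow_left₀ (by positivity) hn1 2
    have e2 : κ * (N:ℝ)^2 ≤ (ω * N / 2)^2 := by
      have : κ * (N:ℝ)^2 = (1-ω) * (ω * N / 2)^2 := by rw [hκ]; ring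
      rw [this]
      exact mul_le_of_le_one_left (by positivity) (by linarith)
    linarith
  have hκ2 : κ ≤ (n * ((N:ℝ) - n)) / (N:ℝ)^2 := by
    rw [le_div_iff₀ (by positivity)]
    have e1 : (ω * N / 2) * ((1-ω) * N) ≤ n * ((N:ℝ) - n) := by
      apply mul_le_mul hn1 (by linarith) (mul_nonneg (by linarith) hN0.le) (by positivity)
    have e2 : κ * (N:ℝ)^2 = (ω/2) * ((ω * N / 2) * ((1-ω) * N)) := by rw [hκ]; ring
    rw [e2]
    have e3 : 0 ≤ (ω * N / 2) * ((1-ω) * N) :=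
      mul_nonneg (by positivity) (mul_nonneg (by linarith) hN0.le)
    nlinarith
  obtain ⟨m, hm⟩ : ∃ m, J + m + L = n := ⟨n - J - L, by omega⟩
  -- the start
  have h2 := start_lower N n (L+m) J hJ' J 0 (by omega)
  have hlen : L + m + J = n := by omega
  rw [hlen] at h2
  simp only [Nat.mul_zero, zero_add] at h2
  refine le_trans ?_ h2
  have h3 := start_half N J hJ
  have e0 : κ^L / 4 = (1/2) * (κ^L * (1/2)) := by ring
  rw [e0]
  apply mul_le_mul h3 _ (by positivity) (by positivity)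
  · -- the middle
    have h4 := V0_ge_G N n κ hnN' hκ0 hκ1 hκ2 L hL2 m J (by omega) (2*J+1) hJ'
    refine le_trans ?_ h4
    apply mul_le_mul_of_nonneg_left _ (by positivity)
    have h5 := G_ge N n (by omega) m J (2*J+1) hJ'
    have h6 := top_bound ω h0 h1 hω N n J L m hN hJ' hωN hωN' hm hL
    have h7 : ∑ j ∈ range (m+1), (K N)^[j] (fun y => if y ≤ J + j then 1 else 0) (2*J+1)
        ≤ (Real.exp (-(c^2/16)))^J / (1 - Real.exp (-(c^2/16))) + n * Real.exp (-(c^2 * L^2/(16*n))) := by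
      set ρ := Real.exp (-(c^2/16)) with hρ
      have hρ0 : 0 < ρ := Real.exp_pos _
      have hρ1 : ρ < 1 := by
        rw [hρ, Real.exp_lt_one_iff]
        have := pow_pos hc0 2; linarith
      calc ∑ j ∈ range (m+1), (K N)^[j] (fun y => if y ≤ J + j then 1 else 0) (2*J+1)
          ≤ ∑ j ∈ range (m+1), (ρ ^ (J + j) + Real.exp (-(c^2 * L^2/(16*n)))) := by
            apply Finset.sum_le_sum
            intro j hj
            rw [Finset.mem_range] at hj
            exact term_bound ω c hc0 hc1 hc N n J L (by omega) hJ0 hJ' hωN j (by omega)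
        _ = ρ^J * ∑ j ∈ range (m+1), ρ^j + (m+1) * Real.exp (-(c^2 * L^2/(16*n))) := by
            rw [Finset.sum_add_distrib, Finset.mul_sum]
            simp [pow_add]
        _ ≤ ρ^J / (1 - ρ) + n * Real.exp (-(c^2 * L^2/(16*n))) := by
            have g1 : ∑ j ∈ range (m+1), ρ^j ≤ 1 / (1 - ρ) := by
              have h8 := (summable_geometric_of_lt_one hρ0.le hρ1).sum_le_tsum (range (m+1))
                (fun _ _ => by positivity)
              rw [tsum_geometric_of_lt_one hρ0.le hρ1] at h8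
              rwa [one_div]
            have g2 : (m:ℝ) + 1 ≤ n := by exact_mod_cast (by omega : m + 1 ≤ n)
            have g3 := mul_le_mul_of_nonneg_left g1 (pow_nonneg hρ0.le J)
            have g4 := mul_le_mul_of_nonneg_right g2 (Real.exp_pos (-(c^2 * L^2/(16*(n:ℝ))))).le
            have g5 : ρ^J * (1 / (1 - ρ)) = ρ^J / (1 - ρ) := by ring
            linarith
    linarith

/-! ### The parameters -/

/-- the integer part of the root of order 32. -/
def rt (n : ℕ) : ℕ := Nat.findGreatest (fun t => t^32 ≤ n) n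

theorem rt_le (n : ℕ) : (rt n)^32 ≤ n :=
  Nat.findGreatest_spec (P := fun t => t^32 ≤ n) (Nat.zero_le n) (by simp)

theorem lt_rt (n : ℕ) : n < (rt n + 1)^32 := by
  by_contra h
  push Not at h
  have h1 : rt n + 1 ≤ n := by
    refine le_trans ?_ h
    exact Nat.le_self_pow (by norm_num) _
  exact Nat.findGreatest_is_greatest (P := fun t => t^32 ≤ n) (Nat.lt_succ_self _) h1 h

theorem rt_tendsto : Tendsto rt atTop atTop := by
  rw [tendsto_atTop]
  intro b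
  filter_upwards [eventually_ge_atTop (b^32)] with n hn
  by_contra h
  push Not at h
  have h1 := lt_rt n
  have h2 : (rt n + 1)^32 ≤ b^32 := Nat.pow_le_pow_left h 32
  omega

theorem rt_tendsto' : Tendsto (fun n => ((rt n : ℕ) : ℝ)) atTop atTop :=
  tendsto_natCast_atTop_atTop.comp rt_tendsto

/-- the number of letters -/
noncomputable def NN (ω : ℝ) (n : ℕ) : ℕ := ⌈(n:ℝ) / ω⌉₊

theorem NN_ge (ω : ℝ) (h0 : 0 < ω) (n : ℕ) : (n:ℝ) ≤ ω * NN ω n := by
  have := Nat.le_ceil ((n:ℝ)/ω)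
  rw [div_le_iff₀ h0] at this
  unfold NN; linarith

theorem NN_le (ω : ℝ) (h0 : 0 < ω) (n : ℕ) : ω * NN ω n ≤ n + ω := by
  have h := (Nat.ceil_lt_add_one (by positivity : 0 ≤ (n:ℝ)/ω)).le
  have h2 := mul_le_mul_of_nonneg_left h h0.le
  have h3 : ω * ((n:ℝ)/ω + 1) = n + ω := by field_simp
  unfold NN; linarith

theorem NN_ge' (ω : ℝ) (h0 : 0 < ω) (h1 : ω < 1) (n : ℕ) : n ≤ NN ω n := by
  have := NN_ge ω h0 n
  have h2 : ω * NN ω n ≤ 1 * NN ω n := mul_le_mul_of_nonneg_right h1.le (by positivity)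
  have h3 : (n:ℝ) ≤ NN ω n := by linarith
  exact_mod_cast h3

theorem V0_lower (ω : ℝ) (h0 : 0 < ω) (h1 : ω < 1) (hω : 1 - ω = Real.exp (-(2*ω))) :
    ∀ᶠ n : ℕ in atTop, (ω^2*(1-ω)/4)^((rt n)^17) / 4 ≤ V0 (NN ω n) n n 0 1 := by
  obtain ⟨c, hc0, hc1, hc⟩ := omega_drift ω h0 h1 hω
  set ρ := Real.exp (-(c^2/16)) with hρ
  have hρ0 : 0 < ρ := Real.exp_pos _
  have hρ1 : ρ < 1 := by
    rw [hρ, Real.exp_lt_one_iff]
    have := pow_pos hc0 2; linarith
  -- choose `J`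
  obtain ⟨J, hJ0, hJ1⟩ : ∃ J : ℕ, 1 ≤ J ∧ ρ^J / (1 - ρ) ≤ 1/8 := by
    have h2 : Tendsto (fun J : ℕ => ρ^J / (1 - ρ)) atTop (𝓝 (0 / (1 - ρ))) :=
      (tendsto_pow_atTop_nhds_zero_of_lt_one hρ0.le hρ1).div_const _
    rw [zero_div] at h2
    have h3 := h2.eventually (eventually_le_nhds (show (0:ℝ) < 1/8 by norm_num))
    obtain ⟨J, hJ⟩ := ((eventually_ge_atTop 1).and h3).exists
    exact ⟨J, hJ.1, hJ.2⟩
  -- the error terms
  have hlim : ∀ a : ℝ, 0 < a → Tendsto (fun x : ℝ => (2:ℝ)^32 * x^32 * Real.exp (-(a * x^2))) atTop (𝓝 0) := by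
    intro a ha
    have h2 := Real.tendsto_pow_mul_exp_neg_atTop_nhds_zero 16
    have h3 : Tendsto (fun x : ℝ => a * x^2) atTop atTop :=
      Tendsto.const_mul_atTop ha (tendsto_pow_atTop (by norm_num))
    have h4 := (h2.comp h3).const_mul ((2:ℝ)^32 / a^16)
    rw [mul_zero] at h4
    refine h4.congr fun x => ?_
    simp only [Function.comp]
    field_simp
  have hE : ∀ a : ℝ, 0 < a → ∀ᶠ n : ℕ in atTop,
      (n:ℝ) * Real.exp (-(a * (((rt n)^17 : ℕ):ℝ)^2/(16*n))) ≤ 1/8 := by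
    intro a ha
    have h2 := (hlim (a/(16*2^32)) (by positivity)).comp rt_tendsto'
    filter_upwards [h2.eventually (eventually_le_nhds (show (0:ℝ) < 1/8 by norm_num)),
      rt_tendsto.eventually_ge_atTop 1, eventually_ge_atTop 1] with n hn hr hn1
    refine le_trans ?_ hn
    simp only [Function.comp]
    have hrR : (1:ℝ) ≤ rt n := by exact_mod_cast hr
    have hnR : (1:ℝ) ≤ n := by exact_mod_cast hn1
    have h5 : (n:ℝ) ≤ (2:ℝ)^32 * (rt n:ℝ)^32 := by
      have h6 := (lt_rt n).le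
      have h7 : (n:ℝ) ≤ ((rt n:ℝ) + 1)^32 := by exact_mod_cast h6
      refine h7.trans ?_
      rw [← mul_pow]
      exact pow_le_pow_left₀ (by positivity) (by linarith) 32
    apply mul_le_mul h5 _ (Real.exp_pos _).le (by positivity)
    apply Real.exp_le_exp.2
    apply neg_le_neg
    push_cast
    rw [le_div_iff₀ (by positivity)]
    calc a / (16 * 2^32) * (rt n:ℝ)^2 * (16 * n) = (a / 2^32) * (rt n:ℝ)^2 * n := by ring
      _ ≤ (a / 2^32) * (rt n:ℝ)^2 * ((2:ℝ)^32 * (rt n:ℝ)^32) :=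
        mul_le_mul_of_nonneg_left h5 (by positivity)
      _ = a * ((rt n:ℝ)^17)^2 := by ring
  have hω1 : 0 < 1 - ω := by linarith
  have hbig : Tendsto (fun n => (1-ω) * ((rt n : ℕ):ℝ)) atTop atTop :=
    Tendsto.const_mul_atTop hω1 rt_tendsto'
  filter_upwards [hE (c^2) (by positivity), hE ((1-ω)^2) (by positivity),
    rt_tendsto.eventually_ge_atTop 2, eventually_ge_atTop (4*J*(2*J+1)+2),
    hbig.eventually_ge_atTop (2*(J:ℝ)+4), rt_tendsto.eventually_ge_atTop J] with n e1 e2 hr hn hb hrJ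
  have hNn := NN_ge' ω h0 h1 n
  have hr17 : rt n ≤ (rt n)^17 := Nat.le_self_pow (by norm_num) _
  have h17 : 2 * (rt n)^17 ≤ n := by
    calc 2 * (rt n)^17 ≤ rt n * (rt n)^17 := Nat.mul_le_mul_right _ hr
      _ = (rt n)^18 := by ring
      _ ≤ (rt n)^32 := Nat.pow_le_pow_right (by omega) (by norm_num)
      _ ≤ n := rt_le n
  have hn1 : (1:ℝ) ≤ n := by exact_mod_cast (by omega : 1 ≤ n)
  apply V0_ge ω c h0 h1 hω hc0 hc1 hc (NN ω n) n J ((rt n)^17) (by omega) hJ0 (by omega)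
    (NN_ge ω h0 n) (NN_le ω h0 n) (by omega) h17
  · refine hb.trans ?_
    apply mul_le_mul_of_nonneg_left _ hω1.le
    exact_mod_cast hr17
  · have e3 : Real.exp (-((1-ω)^2 * (((rt n)^17 : ℕ):ℝ)^2/(16*n)))
        ≤ n * Real.exp (-((1-ω)^2 * (((rt n)^17 : ℕ):ℝ)^2/(16*n))) :=
      le_mul_of_one_le_left (Real.exp_pos _).le hn1
    linarith

end Pool.Agent.KS6_31.AM
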