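import Mathlib

set_option autoImplicit false

/-!
The exploration chain: `z` is the number of discovered states, one step reads the row (two letters) of
one discovered state; the letters are uniform among `N` states.
-/

namespace Pool.Agent.KS6_31.AM

open Finset

/-- one step of the exploration chain. -/
noncomputable def K (N : ℕ) (f : ℕ → ℝ) (z : ℕ) : ℝ :=
  ((z:ℝ)^2 * f z + (2*z+1)*(N - z)*f (z+1) + (N - z)*(N - z - 1)*f (z+2)) / (N:ℝ)^2

/-- paths with `m` steps from `z` at time `i` to `n`, above the diagonal, the weight of the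
steps without a new state being reduced by `c i`. -/
noncomputable def V (N n : ℕ) (c : ℕ → ℕ) : ℕ → ℕ → ℕ → ℝ
  | 0, _, z => if z = n then 1 else 0
  | m+1, i, z => if i + 1 ≤ z then K N (V N n c m (i+1)) z - (c i / (N:ℝ)^2) * V N n c m (i+1) z else 0

/-- the weights of the restricted growth strings. -/
def Q (n : ℕ) (c : ℕ → ℕ) : ℕ → ℕ → ℕ → ℕ
  | 0, _, z => if z = n then 1 else 0
  | m+1, i, z => if i + 1 ≤ z then (z^2 - c i) * Q n c m (i+1) z
      + (2*z+1) * Q n c m (i+1) (z+1) + Q n c m (i+1) (z+2) else 0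

theorem Q_zero_of_lt (n : ℕ) (c : ℕ → ℕ) (m i z : ℕ) (h : n < z) : Q n c m i z = 0 := by
  induction m generalizing i z with
  | zero => simp [Q]; omega
  | succ m ih =>
    simp only [Q]
    split_ifs
    · rw [ih _ _ h, ih _ _ (by omega), ih _ _ (by omega)]; simp
    · rfl

theorem V_zero_of_lt (N n : ℕ) (c : ℕ → ℕ) (m i z : ℕ) (h : n < z) : V N n c m i z = 0 := by
  induction m generalizing i z with
  | zero => simp [V]; omega
  | succ m ih =>
    simp only [V, K]
    split_ifs
    · rw [ih _ _ h, ih _ _ (by omega), ih _ _ (by omega)]; simp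
    · rfl

theorem V_eq_Q (N n : ℕ) (hN : 1 ≤ N) (hn : n ≤ N) (c : ℕ → ℕ) (hc : ∀ i, c i ≤ i) (m i z : ℕ)
    (hz : z ≤ N) :
    V N n c m i z * (N:ℝ)^(2*m) * ((N - n).factorial : ℝ)
      = ((N - z).factorial : ℝ) * (Q n c m i z : ℝ) := by
  have hN0 : (N:ℝ) ≠ 0 := by positivity
  induction m generalizing i z with
  | zero =>
    simp only [V, Q]
    split_ifs with h
    · rw [h]; simp
    · simp
  | succ m ih =>
    simp only [V, Q]
    split_ifs with h
    · rcases Nat.lt_or_ge n z with hzn | hzn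
      · rw [Q_zero_of_lt n c m _ _ hzn, Q_zero_of_lt n c m _ _ (by omega),
          Q_zero_of_lt n c m _ _ (by omega)]
        simp only [K]
        rw [V_zero_of_lt N n c m _ _ hzn, V_zero_of_lt N n c m _ _ (by omega),
          V_zero_of_lt N n c m _ _ (by omega)]
        simp
      have h0 := ih (i+1) z hz
      have hcz : c i ≤ z^2 := (hc i).trans (by nlinarith)
      -- the step with one new state
      have h1 : ((N:ℝ) - z) * (V N n c m (i+1) (z+1) * (N:ℝ)^(2*m) * ((N - n).factorial : ℝ))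
          = ((N - z).factorial : ℝ) * (Q n c m (i+1) (z+1) : ℝ) := by
        rcases Nat.lt_or_ge z N with hlt | hge
        · rw [ih (i+1) (z+1) (by omega)]
          have : N - z = (N - (z+1)) + 1 := by omega
          rw [this, Nat.factorial_succ]
          have e : ((N:ℝ) - z) = ((N - (z+1) + 1 : ℕ) : ℝ) := by
            rw [← this, Nat.cast_sub hz]
          rw [e]; push_cast; ring
        · have hzN : z = N := by omega
          have hQ : Q n c m (i+1) (z+1) = 0 := Q_zero_of_lt n c m _ _ (by omega)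
          rw [hQ, hzN]; simp
      have h2 : ((N:ℝ) - z) * ((N:ℝ) - z - 1) *
          (V N n c m (i+1) (z+2) * (N:ℝ)^(2*m) * ((N - n).factorial : ℝ))
          = ((N - z).factorial : ℝ) * (Q n c m (i+1) (z+2) : ℝ) := by
        rcases Nat.lt_or_ge (z+1) N with hlt | hge
        · rw [ih (i+1) (z+2) (by omega)]
          have : N - z = (N - (z+2)) + 1 + 1 := by omega
          rw [this, Nat.factorial_succ, Nat.factorial_succ]
          have e : ((N:ℝ) - z) = ((N - (z+2) + 1 + 1 : ℕ) : ℝ) := by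
            rw [← this, Nat.cast_sub hz]
          rw [e]; push_cast; ring
        · have hQ : Q n c m (i+1) (z+2) = 0 := by
            apply Q_zero_of_lt; omega
          rw [hQ]
          have : z = N ∨ z + 1 = N := by omega
          rcases this with h | h
          · rw [h]; simp
          · have e : ((N:ℝ) - z) - 1 = 0 := by rw [← h]; push_cast; ring
            rw [e]; simp
      simp only [K]
      push_cast [Nat.cast_sub hcz]
      have e : (N:ℝ)^(2*(m+1)) = (N:ℝ)^2 * (N:ℝ)^(2*m) := by rw [← pow_add]; congr 1; ring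
      rw [e]
      have key : (((z:ℝ)^2 * V N n c m (i+1) z + (2*z+1)*(N - z)*V N n c m (i+1) (z+1)
          + (N - z)*(N - z - 1)*V N n c m (i+1) (z+2)) / (N:ℝ)^2
          - (c i / (N:ℝ)^2) * V N n c m (i+1) z) * ((N:ℝ)^2 * (N:ℝ)^(2*m)) * ((N - n).factorial : ℝ)
          = ((z:ℝ)^2 - c i) * (V N n c m (i+1) z * (N:ℝ)^(2*m) * ((N - n).factorial : ℝ))
            + (2*z+1) * (((N:ℝ) - z) * (V N n c m (i+1) (z+1) * (N:ℝ)^(2*m) * ((N - n).factorial : ℝ)))
            + (((N:ℝ) - z) * ((N:ℝ) - z - 1) *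
          (V N n c m (i+1) (z+2) * (N:ℝ)^(2*m) * ((N - n).factorial : ℝ))) := by
        field_simp
        ring
      rw [key, h0, h1, h2]
      ring
    · simp

/-! ### The chain -/

theorem K_mono (N : ℕ) (f g : ℕ → ℝ) (h : ∀ z ≤ N, f z ≤ g z) (z : ℕ) (hz : z ≤ N) :
    K N f z ≤ K N g z := by
  unfold K
  apply div_le_div_of_nonneg_right _ (by positivity)
  have hzR : (z:ℝ) ≤ N := by exact_mod_cast hz
  have t1 : (z:ℝ)^2 * f z ≤ (z:ℝ)^2 * g z := mul_le_mul_of_nonneg_left (h z hz) (by positivity)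
  have t2 : (2*(z:ℝ)+1)*(N - z)*f (z+1) ≤ (2*(z:ℝ)+1)*(N - z)*g (z+1) := by
    rcases Nat.lt_or_ge z N with hlt | hge
    · exact mul_le_mul_of_nonneg_left (h _ (by omega)) (mul_nonneg (by positivity) (by linarith))
    · have : (z:ℝ) = N := by exact_mod_cast (by omega : z = N)
      rw [this]; simp
  have t3 : ((N:ℝ) - z)*(N - z - 1)*f (z+2) ≤ ((N:ℝ) - z)*(N - z - 1)*g (z+2) := by
    rcases Nat.lt_or_ge (z+1) N with hlt | hge
    · have h1 : (z:ℝ) + 1 ≤ N := by exact_mod_cast hlt.le
      exact mul_le_mul_of_nonneg_left (h _ (by omega)) (mul_nonneg (by linarith) (by linarith))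
    · have : z = N ∨ z + 1 = N := by omega
      rcases this with h | h
      · have : (z:ℝ) = N := by exact_mod_cast h
        rw [this]; simp
      · have e : ((N:ℝ) - z) - 1 = 0 := by rw [← h]; push_cast; ring
        rw [e]; simp
  linarith

theorem K_const (N : ℕ) (hN : 1 ≤ N) (a : ℝ) (z : ℕ) : K N (fun _ => a) z = a := by
  unfold K
  have : (N:ℝ) ≠ 0 := by positivity
  field_simp
  ring

theorem K_add (N : ℕ) (f g : ℕ → ℝ) (z : ℕ) : K N (fun z => f z + g z) z = K N f z + K N g z := by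
  unfold K; ring

theorem K_sub (N : ℕ) (f g : ℕ → ℝ) (z : ℕ) : K N (fun z => f z - g z) z = K N f z - K N g z := by
  unfold K; ring

theorem K_smul (N : ℕ) (a : ℝ) (f : ℕ → ℝ) (z : ℕ) : K N (fun z => a * f z) z = a * K N f z := by
  unfold K; ring

theorem K_sum {ι : Type} (N : ℕ) (s : Finset ι) (f : ι → ℕ → ℝ) (z : ℕ) :
    K N (fun z => ∑ i ∈ s, f i z) z = ∑ i ∈ s, K N (f i) z := by
  classical
  induction s using Finset.induction_on with
  | empty => simp [K]
  | insert a s ha ih =>
    simp only [Finset.sum_insert ha]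
    rw [K_add, ih]

theorem K_nonneg (N : ℕ) (f : ℕ → ℝ) (h : ∀ z ≤ N, 0 ≤ f z) (z : ℕ) (hz : z ≤ N) : 0 ≤ K N f z := by
  have h1 := K_mono N (fun _ => 0) f h z hz
  have h2 : K N (fun _ => (0:ℝ)) z = 0 := by simp [K]
  linarith

/-- the part with an old row is at most everything. -/
theorem old_le_K (N : ℕ) (f : ℕ → ℝ) (h : ∀ z ≤ N, 0 ≤ f z) (z : ℕ) (hz : z ≤ N) :
    ((z:ℝ)^2 / (N:ℝ)^2) * f z ≤ K N f z := by
  have h1 := K_nonneg N (fun y => if y = z then 0 else f y) (fun y hy => by
    split_ifs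
    · exact le_rfl
    · exact h y hy) z hz
  have h2 : K N (fun y => if y = z then 0 else f y) z = K N f z - ((z:ℝ)^2 / (N:ℝ)^2) * f z := by
    unfold K
    simp
    ring
  linarith

theorem V_nonneg (N n : ℕ) (c : ℕ → ℕ) (hc : ∀ i, c i ≤ i) (m i z : ℕ) (hz : z ≤ N) :
    0 ≤ V N n c m i z := by
  induction m generalizing i z with
  | zero => simp only [V]; split_ifs <;> norm_num
  | succ m ih =>
    simp only [V]
    split_ifs with h
    · have h1 := old_le_K N (V N n c m (i+1)) (fun z hz => ih (i+1) z hz) z hz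
      have h2 : (c i:ℝ) / (N:ℝ)^2 ≤ (z:ℝ)^2 / (N:ℝ)^2 := by
        apply div_le_div_of_nonneg_right _ (by positivity)
        have h3 : c i ≤ z^2 := (hc i).trans (by nlinarith)
        exact_mod_cast h3
      have h3 := mul_le_mul_of_nonneg_right h2 (ih (i+1) z hz)
      linarith
    · exact le_rfl

/-- with all weights, starting later is harder. -/
theorem V_anti (N n : ℕ) (m i z : ℕ) (hz : z ≤ N) :
    V N n (fun _ => 0) m (i+1) z ≤ V N n (fun _ => 0) m i z := by
  induction m generalizing i z with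
  | zero => simp [V]
  | succ m ih =>
    simp only [V, Nat.cast_zero, zero_div, zero_mul, sub_zero]
    split_ifs with h1 h2
    · exact K_mono N _ _ (fun z hz => ih (i+1) z hz) z hz
    · omega
    · exact K_nonneg N _ (fun z hz => V_nonneg N n _ (fun _ => Nat.zero_le _) m _ z hz) z hz
    · exact le_rfl

/-- a step with old letters can be appended at the end. -/
theorem V_append (N n : ℕ) (hn : n ≤ N) (m i z : ℕ) (hz : z ≤ N) (him : i + m + 1 ≤ n) :
    ((n:ℝ)^2 / (N:ℝ)^2) * V N n (fun _ => 0) m i z ≤ V N n (fun _ => 0) (m+1) i z := by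
  induction m generalizing i z with
  | zero =>
    rcases eq_or_ne z n with h | h
    · subst h
      have h1 : i + 1 ≤ z := by omega
      have h2 := old_le_K N (V N z (fun _ => 0) 0 (i+1))
        (fun z hz => V_nonneg N _ _ (fun _ => Nat.zero_le _) 0 _ z hz) z hz
      simp only [V, h1, if_true, Nat.cast_zero, zero_div, zero_mul, sub_zero] at h2 ⊢
      exact h2
    · have h1 := V_nonneg N n (fun _ => 0) (fun _ => Nat.zero_le _) 1 i z hz
      have h2 : V N n (fun _ => 0) 0 i z = 0 := by simp [V, h]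
      rw [h2, mul_zero]
      exact h1
  | succ m ih =>
    have e : V N n (fun _ => 0) (m+1+1) i z
        = if i + 1 ≤ z then K N (V N n (fun _ => 0) (m+1) (i+1)) z
          - (((0:ℕ):ℝ) / (N:ℝ)^2) * V N n (fun _ => 0) (m+1) (i+1) z else 0 := rfl
    have e' : V N n (fun _ => 0) (m+1) i z
        = if i + 1 ≤ z then K N (V N n (fun _ => 0) m (i+1)) z
          - (((0:ℕ):ℝ) / (N:ℝ)^2) * V N n (fun _ => 0) m (i+1) z else 0 := rfl
    rw [e, e']
    split_ifs with h
    · simp only [Nat.cast_zero, zero_div, zero_mul, sub_zero]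
      rw [← K_smul]
      exact K_mono N _ _ (fun z hz => ih (i+1) z hz (by omega)) z hz
    · simp

/-- an old row at time `i` has probability at most `z ^ 2 / n ^ 2`. -/
theorem old_step (N n : ℕ) (hN : 1 ≤ N) (hn : n ≤ N) (m i z : ℕ) (hz : z ≤ N)
    (him : i + m + 1 = n) :
    ((z:ℝ)^2 / (N:ℝ)^2) * V N n (fun _ => 0) m (i+1) z
      ≤ ((z:ℝ)^2 / (n:ℝ)^2) * V N n (fun _ => 0) (m+1) i z := by
  have h1 := V_anti N n m i z hz
  have h2 := V_append N n hn m i z hz (by omega)
  have hN0 : (0:ℝ) < N := by exact_mod_cast hN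
  have hn0 : (0:ℝ) < n := by
    have : 1 ≤ n := by omega
    exact_mod_cast this
  have h3 : V N n (fun _ => 0) m i z ≤ ((N:ℝ)^2 / (n:ℝ)^2) * V N n (fun _ => 0) (m+1) i z := by
    have h4 : ((N:ℝ)^2 / (n:ℝ)^2) * (((n:ℝ)^2 / (N:ℝ)^2) * V N n (fun _ => 0) m i z)
        = V N n (fun _ => 0) m i z := by
      field_simp
    rw [← h4]
    exact mul_le_mul_of_nonneg_left h2 (by positivity)
  calc ((z:ℝ)^2 / (N:ℝ)^2) * V N n (fun _ => 0) m (i+1) z
      ≤ ((z:ℝ)^2 / (N:ℝ)^2) * (((N:ℝ)^2 / (n:ℝ)^2) * V N n (fun _ => 0) (m+1) i z) :=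
        mul_le_mul_of_nonneg_left (h1.trans h3) (by positivity)
    _ = ((z:ℝ)^2 / (n:ℝ)^2) * V N n (fun _ => 0) (m+1) i z := by
        field_simp

end Pool.Agent.KS6_31.AM
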