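import Pool.Agent.KS6_31.AM.Conc

set_option autoImplicit false

/-!
Comparison of the weights with and without the factors `1 - i / z ^ 2`.
-/

namespace Pool.Agent.KS6_31.AM

open Finset

/-- all paths above the diagonal -/
noncomputable abbrev V0 (N n : ℕ) : ℕ → ℕ → ℕ → ℝ := V N n (fun _ => 0)
/-- paths above the diagonal, weighted with `1 - i / z ^ 2` at the steps without a new state -/
noncomputable abbrev V1 (N n : ℕ) : ℕ → ℕ → ℕ → ℝ := V N n (fun i => i)

theorem V0_succ (N n m i z : ℕ) : V0 N n (m+1) i z = if i + 1 ≤ z then K N (V0 N n m (i+1)) z else 0 := by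
  simp [V0, V]

theorem V1_succ (N n m i z : ℕ) : V1 N n (m+1) i z = if i + 1 ≤ z then
    K N (V1 N n m (i+1)) z - ((i:ℝ) / (N:ℝ)^2) * V1 N n m (i+1) z else 0 := by
  simp [V1, V]

theorem V0_nonneg (N n m i z : ℕ) (hz : z ≤ N) : 0 ≤ V0 N n m i z :=
  V_nonneg N n _ (fun _ => Nat.zero_le _) m i z hz

theorem V1_nonneg (N n m i z : ℕ) (hz : z ≤ N) : 0 ≤ V1 N n m i z :=
  V_nonneg N n _ (fun _ => le_rfl) m i z hz

theorem K_modify (N : ℕ) (f g : ℕ → ℝ) (z : ℕ) :
    K N (fun y => if y = z then f y else g y) z = K N g z + ((z:ℝ)^2 / (N:ℝ)^2) * (f z - g z) := by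
  unfold K
  simp
  ring

/-- the mean of the sum over the steps between `l0` and `i`. -/
noncomputable def lam (N l0 i : ℕ) : ℝ := ∑ l ∈ Ico l0 i, (l:ℝ) / (N:ℝ)^2

theorem lam_succ (N l0 i : ℕ) (h : l0 ≤ i) : lam N l0 (i+1) = lam N l0 i + (i:ℝ) / (N:ℝ)^2 := by
  unfold lam
  rw [Finset.sum_Ico_succ_top h]

theorem lam_nonneg (N l0 i : ℕ) : 0 ≤ lam N l0 i := Finset.sum_nonneg fun _ _ => by positivity

theorem upper_core (N n l0 : ℕ) (hN : 1 ≤ N) (ε θ : ℝ) (hθ : 0 ≤ θ) (m : ℕ) :
    ∀ i, i + m = n → l0 ≤ i → ∀ z ≤ N, ∀ L : ℝ, 0 ≤ L →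
      Real.exp (-L) * V1 N n m i z ≤ Real.exp (-lam N l0 n + ε) * V0 N n m i z
        + Real.exp (-(θ * ε)) * Real.exp (-(θ * (L - lam N l0 i))) * Y N (-θ) m i z := by
  have hN0 : (0:ℝ) < N := by exact_mod_cast hN
  induction m with
  | zero =>
    intro i hi hl z hz L hL
    have hin : i = n := by omega
    subst hin
    simp only [V1, V0, V, Y, mul_one]
    split_ifs with h
    · simp only [mul_one]
      rcases le_total (lam N l0 i - ε) L with h1 | h1
      · have : Real.exp (-L) ≤ Real.exp (-lam N l0 i + ε) := Real.exp_le_exp.2 (by linarith)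
        have : 0 < Real.exp (-(θ * ε)) * Real.exp (-(θ * (L - lam N l0 i))) := by positivity
        linarith
      · have h2 : Real.exp (-L) ≤ 1 := Real.exp_le_one_iff.2 (by linarith)
        have h3 : 1 ≤ Real.exp (-(θ * ε)) * Real.exp (-(θ * (L - lam N l0 i))) := by
          rw [← Real.exp_add]
          apply Real.one_le_exp
          nlinarith
        have := Real.exp_pos (-lam N l0 i + ε)
        linarith
    · simp only [mul_zero, zero_add]
      positivity
  | succ m ih =>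
    intro i hi hl z hz L hL
    rw [V1_succ, V0_succ]
    simp only [Y]
    split_ifs with h
    · have hz0 : (0:ℝ) < z := by exact_mod_cast (by omega : 0 < z)
      set x : ℝ := i / (z:ℝ)^2 with hx
      have hx0 : 0 ≤ x := by positivity
      have hpx : ((z:ℝ)^2 / (N:ℝ)^2) * x = i / (N:ℝ)^2 := by rw [hx]; field_simp
      have h1 := K_mono N
        (fun y => if y = z then Real.exp (-(L + x)) * V1 N n m (i+1) y
          else Real.exp (-L) * V1 N n m (i+1) y)
        (fun y => if y = z then (Real.exp (-lam N l0 n + ε) * V0 N n m (i+1) y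
        + Real.exp (-(θ * ε)) * Real.exp (-(θ * ((L + x) - lam N l0 (i+1)))) * Y N (-θ) m (i+1) y)
          else (Real.exp (-lam N l0 n + ε) * V0 N n m (i+1) y
        + Real.exp (-(θ * ε)) * Real.exp (-(θ * (L - lam N l0 (i+1)))) * Y N (-θ) m (i+1) y))
        (fun y hy => by
          split_ifs
          · exact ih (i+1) (by omega) (by omega) y hy (L + x) (by linarith)
          · exact ih (i+1) (by omega) (by omega) y hy L hL) z hz
      rw [K_modify, K_modify, K_smul, K_add, K_smul, K_smul] at h1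
      have h2 : Real.exp (-L) * (1 - x) ≤ Real.exp (-(L + x)) := by
        have h3 : 1 - x ≤ Real.exp (-x) := by
          have := Real.add_one_le_exp (-x); linarith
        calc Real.exp (-L) * (1 - x) ≤ Real.exp (-L) * Real.exp (-x) :=
              mul_le_mul_of_nonneg_left h3 (Real.exp_pos _).le
          _ = _ := by rw [← Real.exp_add]; congr 1; ring
      have h4 : ((z:ℝ)^2 / (N:ℝ)^2) * (Real.exp (-L) * (1 - x) * V1 N n m (i+1) z)
          ≤ ((z:ℝ)^2 / (N:ℝ)^2) * (Real.exp (-(L + x)) * V1 N n m (i+1) z) :=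
        mul_le_mul_of_nonneg_left (mul_le_mul_of_nonneg_right h2 (V1_nonneg N n m _ z hz))
          (by positivity)
      have h5 : Real.exp (-L) * (K N (V1 N n m (i+1)) z - ((i:ℝ) / (N:ℝ)^2) * V1 N n m (i+1) z)
          ≤ Real.exp (-L) * K N (V1 N n m (i+1)) z + ((z:ℝ)^2 / (N:ℝ)^2) *
            (Real.exp (-(L + x)) * V1 N n m (i+1) z - Real.exp (-L) * V1 N n m (i+1) z) := by
        rw [← hpx]
        nlinarith
      refine (h5.trans h1).trans (le_of_eq ?_)
      have e1 : Real.exp (-(θ * ((L + x) - lam N l0 (i+1))))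
          = Real.exp (-(θ * (L - lam N l0 i))) * Real.exp (-(-θ * (i / (N:ℝ)^2))) * Real.exp (-θ * x) := by
        rw [← Real.exp_add, ← Real.exp_add, lam_succ N l0 i hl]
        congr 1; ring
      have e2 : Real.exp (-(θ * (L - lam N l0 (i+1))))
          = Real.exp (-(θ * (L - lam N l0 i))) * Real.exp (-(-θ * (i / (N:ℝ)^2))) := by
        rw [← Real.exp_add, lam_succ N l0 i hl]
        congr 1; ring
      rw [e1, e2]
      ring
    · simp

theorem lower_core (N n l0 : ℕ) (hN : 1 ≤ N) (hl0 : 1 ≤ l0) (ε θ : ℝ) (hε : 0 ≤ ε) (hθ : 0 ≤ θ) (m : ℕ) :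
    ∀ i, i + m = n → l0 ≤ i → ∀ z ≤ N, ∀ L : ℝ,
      Real.exp (-lam N l0 n - ε - (1/(i:ℝ) - 1/((i:ℝ)+m))) * V0 N n m i z
        - Real.exp (-(θ * ε)) * Real.exp (θ * (L - lam N l0 i)) * Y N θ m i z
      ≤ Real.exp (-L) * V1 N n m i z := by
  have hN0 : (0:ℝ) < N := by exact_mod_cast hN
  induction m with
  | zero =>
    intro i hi hl z hz L
    have hin : i = n := by omega
    subst hin
    simp only [V1, V0, V, Y, mul_one]
    split_ifs with h
    · simp only [mul_one, Nat.cast_zero, add_zero, sub_self, sub_zero]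
      rcases le_total L (lam N l0 i + ε) with h1 | h1
      · have : Real.exp (-lam N l0 i - ε) ≤ Real.exp (-L) := Real.exp_le_exp.2 (by linarith)
        have : 0 < Real.exp (-(θ * ε)) * Real.exp (θ * (L - lam N l0 i)) := by positivity
        linarith
      · have h2 : Real.exp (-lam N l0 i - ε) ≤ 1 :=
          Real.exp_le_one_iff.2 (by have := lam_nonneg N l0 i; linarith)
        have h3 : 1 ≤ Real.exp (-(θ * ε)) * Real.exp (θ * (L - lam N l0 i)) := by
          rw [← Real.exp_add]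
          apply Real.one_le_exp
          nlinarith
        have := Real.exp_pos (-L)
        linarith
    · simp only [mul_zero, zero_sub]
      have : 0 < Real.exp (-(θ * ε)) * Real.exp (θ * (L - lam N l0 i)) := by positivity
      linarith
  | succ m ih =>
    intro i hi hl z hz L
    rw [V1_succ, V0_succ]
    simp only [Y]
    split_ifs with h
    · have hi1 : 1 ≤ i := by omega
      have hi0 : (1:ℝ) ≤ i := by exact_mod_cast hi1
      have hz0 : (0:ℝ) < z := by exact_mod_cast (by omega : 0 < z)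
      set x : ℝ := i / (z:ℝ)^2 with hx
      have hx0 : 0 ≤ x := by positivity
      have hx1 : x ≤ 1 / ((i:ℝ)+1) := frac_le i z h
      have hx2 : x ≤ 1/2 := hx1.trans (by
        rw [div_le_div_iff₀ (by positivity) (by norm_num)]; linarith)
      have hpx : ((z:ℝ)^2 / (N:ℝ)^2) * x = i / (N:ℝ)^2 := by rw [hx]; field_simp
      have h1 := K_mono N
        (fun y => if y = z then (Real.exp (-lam N l0 n - ε - (1/((i+1:ℕ):ℝ) - 1/(((i+1:ℕ):ℝ)+m)))
          * V0 N n m (i+1) y
        - Real.exp (-(θ * ε)) * Real.exp (θ * ((L + x) - lam N l0 (i+1))) * Y N θ m (i+1) y)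
          else (Real.exp (-lam N l0 n - ε - (1/((i+1:ℕ):ℝ) - 1/(((i+1:ℕ):ℝ)+m))) * V0 N n m (i+1) y
        - Real.exp (-(θ * ε)) * Real.exp (θ * (L - lam N l0 (i+1))) * Y N θ m (i+1) y))
        (fun y => if y = z then Real.exp (-(L + x)) * V1 N n m (i+1) y
          else Real.exp (-L) * V1 N n m (i+1) y)
        (fun y hy => by
          split_ifs
          · exact ih (i+1) (by omega) (by omega) y hy (L + x)
          · exact ih (i+1) (by omega) (by omega) y hy L) z hz
      rw [K_modify, K_modify, K_smul, K_sub, K_smul, K_smul] at h1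
      -- `exp (-x²)` times this is a lower bound
      set E2 := Real.exp (-x^2) with hE2
      have hE2pos : 0 < E2 := Real.exp_pos _
      have hE2le : E2 ≤ 1 := Real.exp_le_one_iff.2 (by nlinarith)
      have h2 : E2 * Real.exp (-(L + x)) ≤ Real.exp (-L) * (1 - x) := by
        have h3 : Real.exp (-(x + x^2)) ≤ 1 - x := by
          have h4 : 1 - x ≠ 0 := by linarith
          have h5 : 0 < 1 - x := by linarith
          -- (1 - x) * exp (x + x^2) ≥ 1
          have h6 : x + x^2 + 1 ≤ Real.exp (x + x^2) := Real.add_one_le_exp _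
          have h7 : 1 ≤ (1 - x) * Real.exp (x + x^2) := by
            have h8 : (x + x^2 + 1) + (x+x^2)^2/2 ≤ Real.exp (x + x^2) := by
              have := Real.quadratic_le_exp_of_nonneg (x := x + x^2) (by positivity)
              linarith
            have h9 : 1 ≤ (1 - x) * ((x + x^2 + 1) + (x+x^2)^2/2) := by
              have hq : (1 - x) * ((x + x^2 + 1) + (x+x^2)^2/2) - 1
                  = x^2 * ((1/2) - x/2 - x^2/2 - x^3/2) := by ring
              have hq2 : 0 ≤ (1/2) - x/2 - x^2/2 - x^3/2 := by nlinarith [pow_nonneg hx0 2, pow_nonneg hx0 3]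
              nlinarith [mul_nonneg (sq_nonneg x) hq2]
            exact h9.trans (mul_le_mul_of_nonneg_left h8 h5.le)
          rw [Real.exp_neg]
          rw [inv_le_comm₀ (Real.exp_pos _) h5]
          rw [inv_le_iff_one_le_mul₀ h5]
          linarith
        calc E2 * Real.exp (-(L + x)) = Real.exp (-L) * Real.exp (-(x + x^2)) := by
              rw [hE2, ← Real.exp_add, ← Real.exp_add]; congr 1; ring
          _ ≤ _ := mul_le_mul_of_nonneg_left h3 (Real.exp_pos _).le
      have hV := V1_nonneg N n m (i+1) z hz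
      have hold := old_le_K N (V1 N n m (i+1)) (fun z hz => V1_nonneg N n m (i+1) z hz) z hz
      have h5 : E2 * (Real.exp (-L) * K N (V1 N n m (i+1)) z + ((z:ℝ)^2 / (N:ℝ)^2) *
            (Real.exp (-(L + x)) * V1 N n m (i+1) z - Real.exp (-L) * V1 N n m (i+1) z))
          ≤ Real.exp (-L) * (K N (V1 N n m (i+1)) z - ((i:ℝ) / (N:ℝ)^2) * V1 N n m (i+1) z) := by
        rw [← hpx]
        have h6 : 0 ≤ (1 - E2) * (Real.exp (-L) *
            (K N (V1 N n m (i+1)) z - ((z:ℝ)^2 / (N:ℝ)^2) * V1 N n m (i+1) z)) :=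
          mul_nonneg (by linarith) (mul_nonneg (Real.exp_pos _).le (by linarith))
        have h7 : ((z:ℝ)^2 / (N:ℝ)^2) * V1 N n m (i+1) z * (E2 * Real.exp (-(L + x)))
            ≤ ((z:ℝ)^2 / (N:ℝ)^2) * V1 N n m (i+1) z * (Real.exp (-L) * (1 - x)) :=
          mul_le_mul_of_nonneg_left h2 (mul_nonneg (by positivity) hV)
        nlinarith
      refine le_trans ?_ h5
      refine le_trans ?_ (mul_le_mul_of_nonneg_left h1 hE2pos.le)
      -- now the algebra
      have e1 : Real.exp (θ * ((L + x) - lam N l0 (i+1)))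
          = Real.exp (θ * (L - lam N l0 i)) * Real.exp (-(θ * (i / (N:ℝ)^2))) * Real.exp (θ * x) := by
        rw [← Real.exp_add, ← Real.exp_add, lam_succ N l0 i hl]
        congr 1; ring
      have e2 : Real.exp (θ * (L - lam N l0 (i+1)))
          = Real.exp (θ * (L - lam N l0 i)) * Real.exp (-(θ * (i / (N:ℝ)^2))) := by
        rw [← Real.exp_add, lam_succ N l0 i hl]
        congr 1; ring
      rw [e1, e2]
      set a := Real.exp (-lam N l0 n - ε - (1/((i+1:ℕ):ℝ) - 1/(((i+1:ℕ):ℝ)+m))) with ha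
      set b := Real.exp (-(θ * ε)) * Real.exp (θ * (L - lam N l0 i)) with hb
      have hb0 : 0 < b := by positivity
      have hB : 0 ≤ Real.exp (-(θ * (i / (N:ℝ)^2))) * (K N (Y N θ m (i+1)) z
          + ((z:ℝ)^2 / (N:ℝ)^2) * (Real.exp (θ * x) - 1) * Y N θ m (i+1) z) := by
        apply mul_nonneg (Real.exp_pos _).le
        have g1 := K_nonneg N (Y N θ m (i+1)) (fun z hz => Y_nonneg N θ m (i+1) z hz) z hz
        have g2 : 0 ≤ ((z:ℝ)^2 / (N:ℝ)^2) * (Real.exp (θ * x) - 1) * Y N θ m (i+1) z := by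
          apply mul_nonneg _ (Y_nonneg N θ m (i+1) z hz)
          apply mul_nonneg (by positivity)
          have := Real.one_le_exp (x := θ * x) (by positivity)
          linarith
        linarith
      have hK0 : 0 ≤ K N (V0 N n m (i+1)) z :=
        K_nonneg N _ (fun z hz => V0_nonneg N n m (i+1) z hz) z hz
      have h8 : x^2 ≤ (1/(i:ℝ) - 1/((i:ℝ)+1)) := by
        have h9 : x^2 ≤ (1/((i:ℝ)+1))^2 := pow_le_pow_left₀ hx0 hx1 2
        refine h9.trans ?_
        rw [div_sub_div _ _ (by positivity) (by positivity), div_pow, div_le_div_iff₀ (by positivity) (by positivity)]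
        nlinarith
      have h10 : Real.exp (-lam N l0 n - ε - (1/(i:ℝ) - 1/((i:ℝ)+(m+1:ℕ)))) ≤ E2 * a := by
        rw [hE2, ha, ← Real.exp_add]
        apply Real.exp_le_exp.2
        push_cast
        have : ((i:ℝ) + 1 + m) = (i:ℝ) + (m+1) := by ring
        rw [this]
        linarith
      have h11 := mul_le_mul_of_nonneg_right h10 hK0
      have h12 : E2 * (b * (Real.exp (-(θ * (i / (N:ℝ)^2))) * (K N (Y N θ m (i+1)) z
          + ((z:ℝ)^2 / (N:ℝ)^2) * (Real.exp (θ * x) - 1) * Y N θ m (i+1) z)))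
          ≤ b * (Real.exp (-(θ * (i / (N:ℝ)^2))) * (K N (Y N θ m (i+1)) z
          + ((z:ℝ)^2 / (N:ℝ)^2) * (Real.exp (θ * x) - 1) * Y N θ m (i+1) z)) :=
        mul_le_of_le_one_left (mul_nonneg hb0.le hB) hE2le
      refine le_trans (sub_le_sub h11 h12) (le_of_eq ?_)
      rw [hb]
      ring
    · simp

/-- before the time `l0`, upper bound. -/
theorem upper_start (N n l0 : ℕ) (c R : ℝ) (hR : 0 ≤ R) (m : ℕ) (hN : 1 ≤ N)
    (h : ∀ z ≤ N, V1 N n m l0 z ≤ c * V0 N n m l0 z + R) (d : ℕ) :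
    ∀ i, i + d = l0 → ∀ z ≤ N, V1 N n (m+d) i z ≤ c * V0 N n (m+d) i z + R := by
  induction d with
  | zero => intro i hi z hz; have : i = l0 := by omega
            subst this; exact h z hz
  | succ d ih =>
    intro i hi z hz
    rw [← add_assoc, V1_succ, V0_succ]
    split_ifs with h1
    · have h2 := K_mono N _ _ (ih (i+1) (by omega)) z hz
      rw [K_add, K_smul, K_const N hN] at h2
      have h3 : 0 ≤ ((i:ℝ) / (N:ℝ)^2) * V1 N n (m+d) (i+1) z :=
        mul_nonneg (by positivity) (V1_nonneg N n _ _ z hz)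
      linarith
    · linarith

/-- before the time `l0`, lower bound. -/
theorem lower_start (N n l0 : ℕ) (c R : ℝ) (hc : c ≤ 1) (hR : 0 ≤ R) (m : ℕ) (hN : 1 ≤ N) (hn : n ≤ N)
    (hm : l0 + m = n)
    (h : ∀ z ≤ N, c * V0 N n m l0 z - R ≤ V1 N n m l0 z) (d : ℕ) :
    ∀ i, i + d = l0 → ∀ z ≤ N, z ≤ 2 * i + 1 →
      (c - ∑ l ∈ Ico i l0, (2*(l:ℝ)+1)^2 / (n:ℝ)^2) * V0 N n (m+d) i z - R ≤ V1 N n (m+d) i z := by
  induction d with
  | zero => intro i hi z hz _; have : i = l0 := by omega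
            subst this; simpa using h z hz
  | succ d ih =>
    intro i hi z hz hzi
    rw [← add_assoc, V1_succ]
    set S := ∑ l ∈ Ico (i+1) l0, (2*(l:ℝ)+1)^2 / (n:ℝ)^2 with hS
    have hS0 : 0 ≤ S := Finset.sum_nonneg fun _ _ => by positivity
    have hsum : ∑ l ∈ Ico i l0, (2*(l:ℝ)+1)^2 / (n:ℝ)^2 = (2*(i:ℝ)+1)^2 / (n:ℝ)^2 + S := by
      rw [Finset.sum_eq_sum_Ico_succ_bot (by omega)]
    have hV0n := V0_nonneg N n (m+d+1) i z hz
    split_ifs with h1
    · -- apply the induction hypothesis to the steps with a new state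
      have h2 := K_mono N
        (fun y => if y = z then 0 else if y ≤ 2*i+3 then (c - S) * V0 N n (m+d) (i+1) y - R else 0)
        (fun y => if y = z then 0 else V1 N n (m+d) (i+1) y)
        (fun y hy => by
          split_ifs with g1 g2
          · exact le_rfl
          · exact ih (i+1) (by omega) y hy (by omega)
          · exact V1_nonneg N n _ _ y hy) z hz
      rw [K_modify N (fun _ => 0), K_modify N (fun _ => 0)] at h2
      have h3 : K N (fun y => if y ≤ 2*i+3 then (c - S) * V0 N n (m+d) (i+1) y - R else 0) z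
          = (c - S) * K N (V0 N n (m+d) (i+1)) z - R := by
        have e : K N (fun y => if y ≤ 2*i+3 then (c - S) * V0 N n (m+d) (i+1) y - R else 0) z
            = K N (fun y => (c - S) * V0 N n (m+d) (i+1) y - R) z := by
          unfold K
          simp only [if_pos (show z ≤ 2*i+3 by omega), if_pos (show z+1 ≤ 2*i+3 by omega),
            if_pos (show z+2 ≤ 2*i+3 by omega)]
        rw [e, K_sub, K_smul, K_const N hN]
      rw [h3] at h2
      rw [if_pos (by omega : z ≤ 2*i+3)] at h2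
      have h4 := old_step N n hN hn (m+d) i z hz (by omega)
      have hV0' : V0 N n (m+d+1) i z = K N (V0 N n (m+d) (i+1)) z := by
        rw [V0_succ, if_pos h1]
      have hp1 : ((z:ℝ)^2 / (N:ℝ)^2) ≤ 1 := by
        have hN0 : (0:ℝ) < N := by exact_mod_cast hN
        rw [div_le_one (by positivity)]
        have : (z:ℝ) ≤ N := by exact_mod_cast hz
        have : (0:ℝ) ≤ z := by positivity
        nlinarith
      have h5 : ((z:ℝ)^2 / (n:ℝ)^2) * V0 N n (m+d+1) i z
          ≤ ((2*(i:ℝ)+1)^2 / (n:ℝ)^2) * V0 N n (m+d+1) i z := by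
        apply mul_le_mul_of_nonneg_right _ hV0n
        apply div_le_div_of_nonneg_right _ (by positivity)
        have : (z:ℝ) ≤ 2*i+1 := by exact_mod_cast hzi
        exact pow_le_pow_left₀ (by positivity) this 2
      have h6 : (c - S) * (((z:ℝ)^2 / (N:ℝ)^2) * V0 N n (m+d) (i+1) z)
          ≤ ((2*(i:ℝ)+1)^2 / (n:ℝ)^2) * V0 N n (m+d+1) i z := by
        have h7 : 0 ≤ ((z:ℝ)^2 / (N:ℝ)^2) * V0 N n (m+d) (i+1) z :=
          mul_nonneg (by positivity) (V0_nonneg N n _ _ z hz)
        have h8 : (c - S) * (((z:ℝ)^2 / (N:ℝ)^2) * V0 N n (m+d) (i+1) z)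
            ≤ ((z:ℝ)^2 / (N:ℝ)^2) * V0 N n (m+d) (i+1) z := by
          nlinarith
        have h9 : ((z:ℝ)^2 / (N:ℝ)^2) * V0 N n (m+d) (i+1) z
            ≤ ((z:ℝ)^2 / (n:ℝ)^2) * V0 N n (m+d+1) i z := h4
        linarith
      have h10 : ((i:ℝ) / (N:ℝ)^2) * V1 N n (m+d) (i+1) z
          ≤ ((z:ℝ)^2 / (N:ℝ)^2) * V1 N n (m+d) (i+1) z := by
        apply mul_le_mul_of_nonneg_right _ (V1_nonneg N n _ _ z hz)
        apply div_le_div_of_nonneg_right _ (by positivity)
        have : i ≤ z^2 := by nlinarith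
        exact_mod_cast this
      rw [hsum, hV0']
      rw [hV0'] at h6
      have h11 : 0 ≤ ((z:ℝ)^2 / (N:ℝ)^2) * R := mul_nonneg (by positivity) hR
      linarith
    · rw [V0_succ, if_neg h1]
      linarith

/-- **Comparison.** -/
theorem compare (N n l0 : ℕ) (hN : 1 ≤ N) (hn : n ≤ N) (hl0 : 1 ≤ l0) (hl : l0 ≤ n) (ε : ℝ)
    (hε : 0 ≤ ε) (hε1 : ε ≤ 2) :
    V1 N n n 0 1 ≤ Real.exp (-lam N l0 n + ε) * V0 N n n 0 1 + Real.exp (-(ε^2*l0/4)) ∧
    (Real.exp (-lam N l0 n - ε - 1/(l0:ℝ)) - 4*(l0:ℝ)^3/(n:ℝ)^2) * V0 N n n 0 1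
      - Real.exp (-(ε^2*l0/4)) ≤ V1 N n n 0 1 := by
  have hl0R : (1:ℝ) ≤ l0 := by exact_mod_cast hl0
  set θ : ℝ := ε * l0 / 2 with hθ
  have hθ0 : 0 ≤ θ := by positivity
  have hθl : θ ≤ l0 + 1 := by rw [hθ]; nlinarith
  obtain ⟨m, hm⟩ : ∃ m, l0 + m = n := ⟨n - l0, by omega⟩
  have hlam0 : lam N l0 l0 = 0 := by simp [lam]
  have hbound : θ^2 * (1/(l0:ℝ) - 1/((l0:ℝ)+m)) ≤ ε^2 * l0 / 4 := by
    have h1 : θ^2 * (1/(l0:ℝ) - 1/((l0:ℝ)+m)) ≤ θ^2 * (1/(l0:ℝ)) := by
      apply mul_le_mul_of_nonneg_left _ (by positivity)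
      have : 0 < 1/((l0:ℝ)+m) := by positivity
      linarith
    refine h1.trans (le_of_eq ?_)
    rw [hθ]; field_simp; ring
  have hexp : ∀ t : ℝ, t ≤ Real.exp (θ^2 * (1/(l0:ℝ) - 1/((l0:ℝ)+m))) →
      Real.exp (-(θ * ε)) * t ≤ Real.exp (-(ε^2*l0/4)) := by
    intro t ht
    calc Real.exp (-(θ * ε)) * t ≤ Real.exp (-(θ * ε)) * Real.exp (ε^2 * l0 / 4) :=
          mul_le_mul_of_nonneg_left (ht.trans (Real.exp_le_exp.2 hbound)) (Real.exp_pos _).le
      _ = _ := by rw [← Real.exp_add]; congr 1; rw [hθ]; ring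
  constructor
  · have h1 : ∀ z ≤ N, V1 N n m l0 z ≤ Real.exp (-lam N l0 n + ε) * V0 N n m l0 z
        + Real.exp (-(ε^2*l0/4)) := by
      intro z hz
      have h2 := upper_core N n l0 hN ε θ hθ0 m l0 hm le_rfl z hz 0 le_rfl
      simp only [neg_zero, Real.exp_zero, one_mul, hlam0, sub_zero, mul_zero, mul_one] at h2
      have h3 := Y_le N hN (-θ) m l0 z hz hl0 (by rw [abs_neg, abs_of_nonneg hθ0]; exact hθl)
      rw [neg_sq] at h3
      have h4 := hexp _ h3
      linarith
    have h5 := upper_start N n l0 _ _ (Real.exp_pos (-(ε^2*l0/4))).le m hN h1 l0 0 (by omega) 1 hN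
    have : m + l0 = n := by omega
    rwa [this] at h5
  · have h1 : ∀ z ≤ N, Real.exp (-lam N l0 n - ε - 1/(l0:ℝ)) * V0 N n m l0 z
        - Real.exp (-(ε^2*l0/4)) ≤ V1 N n m l0 z := by
      intro z hz
      have h2 := lower_core N n l0 hN hl0 ε θ hε hθ0 m l0 hm le_rfl z hz 0
      simp only [neg_zero, Real.exp_zero, one_mul, hlam0, sub_zero, mul_zero, mul_one] at h2
      have h3 := Y_le N hN θ m l0 z hz hl0 (by rw [abs_of_nonneg hθ0]; exact hθl)
      have h4 := hexp _ h3
      have h5 : Real.exp (-lam N l0 n - ε - 1/(l0:ℝ))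
          ≤ Real.exp (-lam N l0 n - ε - (1/(l0:ℝ) - 1/((l0:ℝ)+m))) := by
        apply Real.exp_le_exp.2
        have : 0 < 1/((l0:ℝ)+m) := by positivity
        linarith
      have h6 := mul_le_mul_of_nonneg_right h5 (V0_nonneg N n m l0 z hz)
      linarith
    have hc1 : Real.exp (-lam N l0 n - ε - 1/(l0:ℝ)) ≤ 1 := by
      apply Real.exp_le_one_iff.2
      have := lam_nonneg N l0 n
      have : 0 < 1/(l0:ℝ) := by positivity
      linarith
    have h5 := lower_start N n l0 _ _ hc1 (Real.exp_pos (-(ε^2*l0/4))).le m hN hn hm h1 l0 0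
      (by omega) 1 hN (by omega)
    have e : m + l0 = n := by omega
    rw [e] at h5
    refine le_trans ?_ h5
    have h6 : ∑ l ∈ Ico 0 l0, (2*(l:ℝ)+1)^2 / (n:ℝ)^2 ≤ 4*(l0:ℝ)^3/(n:ℝ)^2 := by
      rw [← Finset.sum_div]
      apply div_le_div_of_nonneg_right _ (by positivity)
      calc ∑ l ∈ Ico 0 l0, (2*(l:ℝ)+1)^2 ≤ ∑ l ∈ Ico 0 l0, 4 * (l0:ℝ)^2 := by
            apply Finset.sum_le_sum
            intro l hl
            rw [Finset.mem_Ico] at hl
            have : (l:ℝ) + 1 ≤ l0 := by exact_mod_cast hl.2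
            have : (0:ℝ) ≤ l := by positivity
            nlinarith
        _ = 4 * (l0:ℝ)^3 := by simp; ring
    have h7 := V0_nonneg N n n 0 1 hN
    nlinarith

end Pool.Agent.KS6_31.AM
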