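import Pool.Agent.KS6_31.AM.Chain

set_option autoImplicit false

/-!
Exponential moments of the exploration chain.
-/

namespace Pool.Agent.KS6_31.AM

open Finset

theorem exp_le_quad (x : ℝ) (hx : |x| ≤ 1) : Real.exp x ≤ 1 + x + x^2 := by
  have := (abs_le.1 (Real.abs_exp_sub_one_sub_id_le hx)).2
  linarith

/-- exponential moments of the number of undiscovered states, one step. -/
theorem K_exp (N : ℕ) (hN : 1 ≤ N) (θ : ℝ) (hθ : |θ| ≤ 1/2) (z : ℕ) (hz : z ≤ N) :
    K N (fun y => Real.exp (θ * (N - y))) z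
      ≤ Real.exp (4 * θ^2) * Real.exp (θ * (1 - 1/(N:ℝ))^2 * (N - z)) := by
  have hN0 : (0:ℝ) < N := by exact_mod_cast hN
  obtain ⟨A, hA⟩ : ∃ A : ℕ, N = z + A := ⟨N - z, by omega⟩
  have hAR : (N:ℝ) - z = A := by rw [hA]; push_cast; ring
  have hNR : (N:ℝ) = z + A := by rw [hA]; push_cast; ring
  unfold K
  push_cast
  rw [hAR]
  have e1 : Real.exp (θ * ((N:ℝ) - ((z:ℝ)+1))) = Real.exp (θ * A) * Real.exp (-θ) := by
    rw [← Real.exp_add]; congr 1; rw [← hAR]; ring
  have e2 : Real.exp (θ * ((N:ℝ) - ((z:ℝ)+2))) = Real.exp (θ * A) * Real.exp (-(2*θ)) := by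
    rw [← Real.exp_add]; congr 1; rw [← hAR]; ring
  rw [e1, e2]
  obtain ⟨hθ1, hθ2⟩ := abs_le.1 hθ
  have h1 : Real.exp (-θ) ≤ 1 - θ + θ^2 := by
    have := exp_le_quad (-θ) (by rw [abs_neg]; linarith)
    nlinarith
  have h2 : Real.exp (-(2*θ)) ≤ 1 - 2*θ + 4*θ^2 := by
    have := exp_le_quad (-(2*θ)) (by rw [abs_neg, abs_mul, abs_two]; linarith)
    nlinarith
  have hA0 : (0:ℝ) ≤ A := by positivity
  have hAA : (0:ℝ) ≤ (A:ℝ) * (A - 1) := by
    rcases Nat.eq_zero_or_pos A with h | h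
    · rw [h]; simp
    · have : (1:ℝ) ≤ A := by exact_mod_cast h
      exact mul_nonneg hA0 (by linarith)
  have hz0 : (0:ℝ) ≤ z := by positivity
  have key : ((z:ℝ)^2 * Real.exp (θ*A) + (2*z+1)*A*(Real.exp (θ*A) * Real.exp (-θ))
      + A*(A-1)*(Real.exp (θ*A) * Real.exp (-(2*θ)))) / (N:ℝ)^2
      ≤ Real.exp (θ*A) * (1 + (-(θ * A * (2*N-1)/(N:ℝ)^2) + 4*θ^2)) := by
    rw [div_le_iff₀ (by positivity)]
    have hE : 0 < Real.exp (θ*A) := Real.exp_pos _
    have step : (z:ℝ)^2 + (2*z+1)*A*Real.exp (-θ) + A*(A-1)*Real.exp (-(2*θ))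
        ≤ (1 + (-(θ * A * (2*N-1)/(N:ℝ)^2) + 4*θ^2)) * (N:ℝ)^2 := by
      have s1 : (2*(z:ℝ)+1)*A*Real.exp (-θ) ≤ (2*(z:ℝ)+1)*A*(1 - θ + θ^2) :=
        mul_le_mul_of_nonneg_left h1 (by positivity)
      have s2 : (A:ℝ)*(A-1)*Real.exp (-(2*θ)) ≤ (A:ℝ)*(A-1)*(1 - 2*θ + 4*θ^2) :=
        mul_le_mul_of_nonneg_left h2 hAA
      have s3 : (1 + (-(θ * A * (2*N-1)/(N:ℝ)^2) + 4*θ^2)) * (N:ℝ)^2
          = (N:ℝ)^2 - θ * A * (2*N-1) + 4*θ^2*(N:ℝ)^2 := by field_simp; ring
      rw [s3, hNR]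
      have s4 : 0 ≤ θ^2 * (4*(z:ℝ)^2 + 3*((2*(z:ℝ)+1)*A)) := by positivity
      nlinarith
    calc (z:ℝ)^2 * Real.exp (θ*A) + (2*z+1)*A*(Real.exp (θ*A) * Real.exp (-θ))
        + A*(A-1)*(Real.exp (θ*A) * Real.exp (-(2*θ)))
        = Real.exp (θ*A) * ((z:ℝ)^2 + (2*z+1)*A*Real.exp (-θ) + A*(A-1)*Real.exp (-(2*θ))) := by ring
      _ ≤ Real.exp (θ*A) * ((1 + (-(θ * A * (2*N-1)/(N:ℝ)^2) + 4*θ^2)) * (N:ℝ)^2) :=
          mul_le_mul_of_nonneg_left step hE.le
      _ = _ := by ring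
  refine key.trans ?_
  have h3 : 1 + (-(θ * A * (2*N-1)/(N:ℝ)^2) + 4*θ^2)
      ≤ Real.exp (-(θ * A * (2*N-1)/(N:ℝ)^2) + 4*θ^2) := by
    have := Real.add_one_le_exp (-(θ * A * (2*N-1)/(N:ℝ)^2) + 4*θ^2)
    linarith
  calc Real.exp (θ*A) * (1 + (-(θ * A * (2*N-1)/(N:ℝ)^2) + 4*θ^2))
      ≤ Real.exp (θ*A) * Real.exp (-(θ * A * (2*N-1)/(N:ℝ)^2) + 4*θ^2) :=
        mul_le_mul_of_nonneg_left h3 (Real.exp_pos _).le
    _ = Real.exp (4 * θ^2) * Real.exp (θ * (1 - 1/(N:ℝ))^2 * A) := by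
        rw [← Real.exp_add, ← Real.exp_add]
        congr 1
        field_simp
        ring

theorem iter_mono (N : ℕ) (f g : ℕ → ℝ) (h : ∀ z ≤ N, f z ≤ g z) (j : ℕ) :
    ∀ z ≤ N, (K N)^[j] f z ≤ (K N)^[j] g z := by
  induction j with
  | zero => simpa using h
  | succ j ih =>
    intro z hz
    rw [Function.iterate_succ_apply', Function.iterate_succ_apply']
    exact K_mono N _ _ ih z hz

theorem iter_smul (N : ℕ) (a : ℝ) (f : ℕ → ℝ) (j : ℕ) :
    ∀ z, (K N)^[j] (fun y => a * f y) z = a * (K N)^[j] f z := by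
  induction j with
  | zero => simp
  | succ j ih =>
    intro z
    rw [Function.iterate_succ_apply', Function.iterate_succ_apply']
    have : (K N)^[j] (fun y => a * f y) = fun y => a * (K N)^[j] f y := funext ih
    rw [this, K_smul]

/-- exponential moments of the number of undiscovered states. -/
theorem iter_exp (N : ℕ) (hN : 1 ≤ N) (θ : ℝ) (hθ : |θ| ≤ 1/2) (j : ℕ) :
    ∀ z ≤ N, (K N)^[j] (fun y => Real.exp (θ * (N - y))) z
      ≤ Real.exp (4 * j * θ^2) * Real.exp (θ * ((1 - 1/(N:ℝ))^2)^j * (N - z)) := by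
  have hN0 : (0:ℝ) < N := by exact_mod_cast hN
  have hq0 : 0 ≤ 1 - 1/(N:ℝ) := by
    have : 1/(N:ℝ) ≤ 1 := by
      rw [div_le_one hN0]; exact_mod_cast hN
    linarith
  have hq1 : 1 - 1/(N:ℝ) ≤ 1 := by
    have : 0 < 1/(N:ℝ) := by positivity
    linarith
  have hq2 : (1 - 1/(N:ℝ))^2 ≤ 1 := pow_le_one₀ hq0 hq1
  induction j with
  | zero => intro z hz; simp
  | succ j ih =>
    intro z hz
    rw [Function.iterate_succ_apply']
    set t := θ * ((1 - 1/(N:ℝ))^2)^j with ht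
    have hpow0 : 0 ≤ ((1 - 1/(N:ℝ))^2)^j := by positivity
    have hpow1 : ((1 - 1/(N:ℝ))^2)^j ≤ 1 := pow_le_one₀ (by positivity) hq2
    have ht1 : |t| ≤ |θ| := by
      rw [ht, abs_mul, abs_of_nonneg hpow0]
      exact mul_le_of_le_one_right (abs_nonneg _) hpow1
    have ht2 : t^2 ≤ θ^2 := by
      rw [← sq_abs t, ← sq_abs θ]
      exact pow_le_pow_left₀ (abs_nonneg _) ht1 2
    have h1 := K_mono N _ _ ih z hz
    rw [K_smul] at h1
    refine h1.trans ?_
    have h2 := K_exp N hN t (ht1.trans hθ) z hz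
    calc Real.exp (4 * j * θ^2) * K N (fun y => Real.exp (t * (N - y))) z
        ≤ Real.exp (4 * j * θ^2) *
          (Real.exp (4 * t^2) * Real.exp (t * (1 - 1/(N:ℝ))^2 * (N - z))) :=
          mul_le_mul_of_nonneg_left h2 (Real.exp_pos _).le
      _ ≤ Real.exp (4 * j * θ^2) *
          (Real.exp (4 * θ^2) * Real.exp (t * (1 - 1/(N:ℝ))^2 * (N - z))) := by
          have : Real.exp (4 * t^2) ≤ Real.exp (4 * θ^2) := Real.exp_le_exp.2 (by linarith)
          gcongr
      _ = _ := by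
          rw [← mul_assoc, ← Real.exp_add]
          congr 2
          · push_cast; ring
          · rw [ht, pow_succ]; ring

/-- lower tail: few states have been discovered after `j` steps from `z`. -/
theorem lower_tail (N : ℕ) (hN : 1 ≤ N) (θ : ℝ) (hθ0 : 0 ≤ θ) (hθ : θ ≤ 1/2) (j b z : ℕ) (hz : z ≤ N) :
    (K N)^[j] (fun y => if y ≤ b then 1 else 0) z
      ≤ Real.exp (4 * j * θ^2 - θ * ((N:ℝ) - b - ((1 - 1/(N:ℝ))^2)^j * (N - z))) := by
  have h1 := iter_mono N (fun y => if y ≤ b then (1:ℝ) else 0)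
    (fun y => Real.exp (-(θ * (N - b))) * Real.exp (θ * (N - y))) (fun y hy => by
      rw [← Real.exp_add]
      split_ifs with h
      · have : (y:ℝ) ≤ b := by exact_mod_cast h
        apply Real.one_le_exp
        nlinarith
      · exact (Real.exp_pos _).le) j z hz
  rw [iter_smul] at h1
  refine h1.trans ?_
  have h2 := iter_exp N hN θ (by rw [abs_of_nonneg hθ0]; exact hθ) j z hz
  refine (mul_le_mul_of_nonneg_left h2 (Real.exp_pos _).le).trans (le_of_eq ?_)
  rw [← Real.exp_add, ← Real.exp_add]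
  congr 1
  ring

/-- upper tail: more than `b` states have been discovered after `j` steps from `z`. -/
theorem upper_tail (N : ℕ) (hN : 1 ≤ N) (θ : ℝ) (hθ0 : 0 ≤ θ) (hθ : θ ≤ 1/2) (j b z : ℕ) (hz : z ≤ N) :
    (K N)^[j] (fun y => if b < y then 1 else 0) z
      ≤ Real.exp (4 * j * θ^2 - θ * (((1 - 1/(N:ℝ))^2)^j * (N - z) - ((N:ℝ) - b))) := by
  have h1 := iter_mono N (fun y => if b < y then (1:ℝ) else 0)
    (fun y => Real.exp (θ * (N - b)) * Real.exp ((-θ) * (N - y))) (fun y hy => by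
      rw [← Real.exp_add]
      split_ifs with h
      · have : (b:ℝ) ≤ y := by exact_mod_cast h.le
        apply Real.one_le_exp
        nlinarith
      · exact (Real.exp_pos _).le) j z hz
  rw [iter_smul] at h1
  refine h1.trans ?_
  have h2 := iter_exp N hN (-θ) (by rw [abs_neg, abs_of_nonneg hθ0]; exact hθ) j z hz
  refine (mul_le_mul_of_nonneg_left h2 (Real.exp_pos _).le).trans (le_of_eq ?_)
  rw [← Real.exp_add, ← Real.exp_add]
  congr 1
  ring

/-! ### The martingale -/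

/-- exponential moments of the compensated sum of `i / z ^ 2` over the steps without a new state. -/
noncomputable def Y (N : ℕ) (s : ℝ) : ℕ → ℕ → ℕ → ℝ
  | 0, _, _ => 1
  | m+1, i, z => if i + 1 ≤ z then Real.exp (-(s * (i / (N:ℝ)^2))) *
      (K N (Y N s m (i+1)) z + ((z:ℝ)^2 / (N:ℝ)^2) * (Real.exp (s * (i / (z:ℝ)^2)) - 1)
        * Y N s m (i+1) z) else 0

theorem Y_nonneg (N : ℕ) (s : ℝ) (m i z : ℕ) (hz : z ≤ N) : 0 ≤ Y N s m i z := by
  induction m generalizing i z with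
  | zero => simp [Y]
  | succ m ih =>
    simp only [Y]
    split_ifs with h
    · apply mul_nonneg (Real.exp_pos _).le
      have h1 := old_le_K N (Y N s m (i+1)) (fun z hz => ih (i+1) z hz) z hz
      have h2 : 0 ≤ ((z:ℝ)^2 / (N:ℝ)^2) * Real.exp (s * (i / (z:ℝ)^2)) * Y N s m (i+1) z :=
        mul_nonneg (by positivity) (ih (i+1) z hz)
      nlinarith
    · exact le_rfl

theorem frac_le (i z : ℕ) (h : i + 1 ≤ z) : (i:ℝ) / (z:ℝ)^2 ≤ 1 / ((i:ℝ)+1) := by
  have hz : ((i:ℝ)+1) ≤ z := by exact_mod_cast h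
  have hi : (0:ℝ) ≤ i := by positivity
  rw [div_le_div_iff₀ (by nlinarith) (by linarith)]
  nlinarith

theorem Y_le (N : ℕ) (hN : 1 ≤ N) (s : ℝ) (m i z : ℕ) (hz : z ≤ N) (hi : 1 ≤ i) (hs : |s| ≤ i + 1) :
    Y N s m i z ≤ Real.exp (s^2 * (1/(i:ℝ) - 1/((i:ℝ)+m))) := by
  have hN0 : (0:ℝ) < N := by exact_mod_cast hN
  induction m generalizing i z with
  | zero => simp [Y]
  | succ m ih =>
    simp only [Y]
    split_ifs with h
    · have hi0 : (0:ℝ) < i := by exact_mod_cast hi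
      have hz0 : (0:ℝ) < z := by exact_mod_cast (by omega : 0 < z)
      set B := Real.exp (s^2 * (1/(((i+1:ℕ)):ℝ) - 1/(((i+1:ℕ):ℝ)+m))) with hB
      have hB0 : 0 < B := Real.exp_pos _
      have hbd : ∀ y ≤ N, Y N s m (i+1) y ≤ B := fun y hy =>
        ih (i+1) y hy (by omega) (by push_cast; linarith)
      set x : ℝ := i / (z:ℝ)^2 with hx
      have hx0 : 0 ≤ x := by positivity
      have hx1 : x ≤ 1 / ((i:ℝ)+1) := frac_le i z h
      have hsx : |s * x| ≤ 1 := by
        rw [abs_mul, abs_of_nonneg hx0]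
        calc |s| * x ≤ (i + 1) * (1 / ((i:ℝ)+1)) := mul_le_mul hs hx1 hx0 (by positivity)
          _ = 1 := by field_simp
      have hE := exp_le_quad (s * x) hsx
      set p : ℝ := (z:ℝ)^2 / (N:ℝ)^2 with hp
      have hp0 : 0 ≤ p := by positivity
      have hp1 : p ≤ 1 := by
        rw [hp, div_le_one (by positivity)]
        have : (z:ℝ) ≤ N := by exact_mod_cast hz
        nlinarith
      have hpx : p * x = i / (N:ℝ)^2 := by
        rw [hp, hx]; field_simp
      -- the step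
      have h1 : K N (Y N s m (i+1)) z + p * (Real.exp (s * x) - 1) * Y N s m (i+1) z
          ≤ B * (1 + p * (Real.exp (s * x) - 1)) := by
        have h2 := old_le_K N (fun y => B - Y N s m (i+1) y) (fun y hy => by
          have := hbd y hy; linarith) z hz
        rw [K_sub, K_const N hN] at h2
        have h3 : 0 ≤ p * Real.exp (s * x) * (B - Y N s m (i+1) z) :=
          mul_nonneg (by positivity) (by have := hbd z hz; linarith)
        nlinarith
      have h4 : 1 + p * (Real.exp (s * x) - 1) ≤ Real.exp (s * (i / (N:ℝ)^2) + s^2 * x^2) := by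
        have h5 : p * (Real.exp (s * x) - 1) ≤ p * (s * x + (s*x)^2) :=
          mul_le_mul_of_nonneg_left (by linarith) hp0
        have h6 : p * (s * x + (s*x)^2) ≤ s * (i / (N:ℝ)^2) + s^2 * x^2 := by
          have : p * (s*x)^2 ≤ (s*x)^2 := mul_le_of_le_one_left (by positivity) hp1
          calc p * (s * x + (s*x)^2) = s * (p * x) + p * (s*x)^2 := by ring
            _ ≤ s * (p * x) + (s*x)^2 := by linarith
            _ = _ := by rw [hpx]; ring
        have h7 := Real.add_one_le_exp (s * (i / (N:ℝ)^2) + s^2 * x^2)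
        linarith
      have h8 : s^2 * x^2 ≤ s^2 * (1/(i:ℝ) - 1/((i:ℝ)+1)) := by
        apply mul_le_mul_of_nonneg_left _ (by positivity)
        have h9 : x^2 ≤ (1/((i:ℝ)+1))^2 := pow_le_pow_left₀ hx0 hx1 2
        refine h9.trans ?_
        rw [div_sub_div _ _ (by positivity) (by positivity), div_pow, div_le_div_iff₀ (by positivity) (by positivity)]
        nlinarith
      calc Real.exp (-(s * (i / (N:ℝ)^2))) *
            (K N (Y N s m (i+1)) z + p * (Real.exp (s * x) - 1) * Y N s m (i+1) z)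
          ≤ Real.exp (-(s * (i / (N:ℝ)^2))) * (B * Real.exp (s * (i / (N:ℝ)^2) + s^2 * x^2)) := by
            apply mul_le_mul_of_nonneg_left _ (Real.exp_pos _).le
            exact h1.trans (mul_le_mul_of_nonneg_left h4 hB0.le)
        _ = B * Real.exp (s^2 * x^2) := by
            rw [Real.exp_add]
            have : Real.exp (-(s * (i / (N:ℝ)^2))) * Real.exp (s * (i / (N:ℝ)^2)) = 1 := by
              rw [← Real.exp_add]; simp
            linear_combination (B * Real.exp (s^2*x^2)) * this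
        _ ≤ B * Real.exp (s^2 * (1/(i:ℝ) - 1/((i:ℝ)+1))) := by gcongr
        _ = Real.exp (s^2 * (1/(i:ℝ) - 1/((i:ℝ)+(m+1:ℕ)))) := by
            rw [hB, ← Real.exp_add]
            congr 1
            push_cast
            have : ((i:ℝ) + 1 + m) = (i:ℝ) + (m+1) := by ring
            rw [this]
            ring
    · exact (Real.exp_pos _).le

end Pool.Agent.KS6_31.AM
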