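import Pool.Agent.KS6_31.AM.Chain
import Pool.Graph.R_seed8.Helper338.RA.Assembly

set_option autoImplicit false

/-!
The number of accessible transition functions over two letters (and of those with pairwise distinct
rows) in terms of the weights `Q`.
-/

namespace Pool.Agent.KS6_31.AM

open Finset RA

variable {V : Type} [Fintype V] [DecidableEq V]

theorem sum_insert_card (F : ℕ → ℕ) (S : Finset V) :
    ∑ y : V, F (insert y S).card = S.card * F S.card + (Fintype.card V - S.card) * F (S.card + 1) := by
  rw [← Finset.sum_filter_add_sum_filter_not univ (· ∈ S)]
  congr 1
  · rw [Finset.sum_congr rfl (g := fun _ => F S.card) (fun y hy => by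
      rw [Finset.insert_eq_of_mem (Finset.mem_filter.1 hy).2])]
    simp
  · rw [Finset.sum_congr rfl (g := fun _ => F (S.card + 1)) (fun y hy => by
      rw [Finset.card_insert_of_notMem (Finset.mem_filter.1 hy).2])]
    rw [Finset.sum_const, smul_eq_mul]
    congr 1
    have : univ.filter (fun y => y ∉ S) = Sᶜ := by ext; simp
    rw [this, Finset.card_compl]

theorem sum_rows (F : ℕ → ℕ) (X : Finset V) :
    ∑ b : Fin 2 → V, F (insert (b 1) (insert (b 0) X)).card
      = X.card^2 * F X.card + (2*X.card+1) * (Fintype.card V - X.card) * F (X.card + 1)
        + (Fintype.card V - X.card) * (Fintype.card V - X.card - 1) * F (X.card + 2) := by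
  have h1 : ∑ b : Fin 2 → V, F (insert (b 1) (insert (b 0) X)).card
      = ∑ x : V, ∑ y : V, F (insert y (insert x X)).card := by
    rw [← Fintype.sum_prod_type' (f := fun x y => F (insert y (insert x X)).card)]
    exact Fintype.sum_equiv (piFinTwoEquiv fun _ => V) _ _ (fun b => rfl)
  rw [h1]
  have h2 : ∀ x : V, ∑ y : V, F (insert y (insert x X)).card
      = (fun s => s * F s + (Fintype.card V - s) * F (s+1)) (insert x X).card := by
    intro x
    rw [sum_insert_card]
  rw [Finset.sum_congr rfl (fun x _ => h2 x),
    sum_insert_card (fun s => s * F s + (Fintype.card V - s) * F (s+1))]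
  rcases Nat.lt_or_ge X.card (Fintype.card V) with h | h
  · obtain ⟨d, hd⟩ : ∃ d, Fintype.card V = X.card + d + 1 := ⟨Fintype.card V - X.card - 1, by omega⟩
    rw [hd]
    have e1 : X.card + d + 1 - X.card = d + 1 := by omega
    have e2 : X.card + d + 1 - (X.card + 1) = d := by omega
    have e3 : d + 1 - 1 = d := by omega
    simp only [e1, e2, e3]
    ring
  · have e1 : Fintype.card V - X.card = 0 := by omega
    have e2 : Fintype.card V - (X.card + 1) = 0 := by omega
    rw [e1]
    ring

open Classical in
/-- the accessible transition functions with given rows in `Y` (with distinct rows if `fl`). -/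
noncomputable def Ext (fl : Prop) (o : V) (Y : Finset V) (T₀ : V → Fin 2 → V) :
    Finset (V → Fin 2 → V) :=
  univ.filter (fun T => (∀ y ∈ Y, T y = T₀ y) ∧ RA.Acc T o ∧ (fl → Function.Injective T))

open Classical in
noncomputable def cc (fl : Prop) (i : ℕ) : ℕ := if fl then i else 0

theorem run_append_one (T : V → Fin 2 → V) (o : V) (w : List (Fin 2)) (a : Fin 2) :
    run T o (w ++ [a]) = T (run T o w) a := by
  simp [run]

theorem run_mem (T : V → Fin 2 → V) (X : Finset V) (h : ∀ x ∈ X, ∀ a, T x a ∈ X) (o : V) (ho : o ∈ X)
    (w : List (Fin 2)) : run T o w ∈ X := by
  induction w generalizing o with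
  | nil => exact ho
  | cons a w ih =>
    rw [run_cons]
    exact ih _ (h o ho a)

theorem count_ext (fl : Prop) (o : V) (m : ℕ) : ∀ (Y X : Finset V) (T₀ : V → Fin 2 → V),
    m + Y.card = Fintype.card V → Y ⊆ X → o ∈ X → (∀ y ∈ Y, ∀ a, T₀ y a ∈ X) →
    (∀ T : V → Fin 2 → V, (∀ y ∈ Y, T y = T₀ y) → ∀ x ∈ X, ∃ w, run T o w = x) →
    (fl → Set.InjOn T₀ (Y : Set V)) →
    (Ext fl o Y T₀).card
      = (Fintype.card V - X.card).factorial * Q (Fintype.card V) (cc fl) m Y.card X.card := by
  classical
  induction m with
  | zero =>
    intro Y X T₀ hc hYX ho hX hreach hinj
    have hY : Y = univ := by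
      apply Finset.eq_univ_of_card; omega
    have hXu : X = univ := by
      apply Finset.eq_univ_of_forall
      intro x
      exact hYX (by rw [hY]; exact Finset.mem_univ x)
    have hE : Ext fl o Y T₀ = {T₀} := by
      ext T
      simp only [Ext, Finset.mem_filter, Finset.mem_univ, true_and, Finset.mem_singleton]
      constructor
      · rintro ⟨h1, _⟩
        funext y
        exact h1 y (by rw [hY]; exact Finset.mem_univ y)
      · rintro rfl
        refine ⟨fun _ _ => rfl, ?_, ?_⟩
        · intro q
          exact hreach T (fun _ _ => rfl) q (by rw [hXu]; exact Finset.mem_univ q)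
        · intro h
          have := hinj h
          rw [hY, Finset.coe_univ, Set.injOn_univ] at this
          exact this
    rw [hE, hXu]
    simp [Q]
  | succ m ih =>
    intro Y X T₀ hc hYX ho hX hreach hinj
    by_cases hXY : X ⊆ Y
    · -- the set of known states is closed
      have hXe : X = Y := Finset.Subset.antisymm hXY hYX
      have hE : Ext fl o Y T₀ = ∅ := by
        apply Finset.eq_empty_of_forall_notMem
        intro T hT
        simp only [Ext, Finset.mem_filter, Finset.mem_univ, true_and] at hT
        obtain ⟨h1, h2, _⟩ := hT
        have h3 : ∀ q, q ∈ X := by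
          intro q
          obtain ⟨w, hw⟩ := h2 q
          rw [← hw]
          apply run_mem T X _ o ho
          intro x hx a
          have hxY := hXY hx
          rw [h1 x hxY]
          exact hX x hxY a
        have h4 : X = univ := Finset.eq_univ_of_forall h3
        have h5 : X.card = Fintype.card V := by rw [h4, Finset.card_univ]
        rw [hXe] at h5
        omega
      rw [hE, hXe]
      have hQ : Q (Fintype.card V) (cc fl) (m+1) Y.card Y.card = 0 := by
        simp [Q]
      rw [hQ]; simp
    · obtain ⟨u, huX, huY⟩ := Finset.not_subset.1 hXY
      have hlt : Y.card < X.card := Finset.card_lt_card ⟨hYX, fun h => huY (h huX)⟩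
      set n := Fintype.card V with hn
      have hXn : X.card ≤ n := Finset.card_le_univ X
      have hne : ∀ y ∈ Y, y ≠ u := by
        intro y hy h
        rw [h] at hy
        exact huY hy
      set S : Finset (Fin 2 → V) := if fl then Y.image T₀ else ∅ with hS
      set F : ℕ → ℕ := fun s => (n - s).factorial * Q n (cc fl) m (Y.card + 1) s with hF
      -- the fibres
      have hfib : ∀ b : Fin 2 → V, ((Ext fl o Y T₀).filter (fun T => T u = b)).card
          = if b ∈ S then 0 else F (insert (b 1) (insert (b 0) X)).card := by
        intro b
        have hEb : (Ext fl o Y T₀).filter (fun T => T u = b)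
            = Ext fl o (insert u Y) (Function.update T₀ u b) := by
          ext T
          simp only [Ext, Finset.mem_filter, Finset.mem_univ, true_and, Finset.mem_insert,
            forall_eq_or_imp, Function.update_self]
          constructor
          · rintro ⟨⟨h1, h2⟩, h3⟩
            refine ⟨⟨h3, ?_⟩, h2⟩
            intro y hy
            rw [Function.update_of_ne (hne y hy), h1 y hy]
          · rintro ⟨⟨h3, h1⟩, h2⟩
            refine ⟨⟨?_, h2⟩, h3⟩
            intro y hy
            have := h1 y hy
            rwa [Function.update_of_ne (hne y hy)] at this
        rw [hEb]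
        split_ifs with hb
        · -- a repeated row
          have hfl : fl := by
            by_contra h
            rw [hS, if_neg h] at hb
            simp at hb
          rw [hS, if_pos hfl, Finset.mem_image] at hb
          obtain ⟨y, hy, hyb⟩ := hb
          rw [Finset.card_eq_zero]
          apply Finset.eq_empty_of_forall_notMem
          intro T hT
          simp only [Ext, Finset.mem_filter, Finset.mem_univ, true_and, Finset.mem_insert,
            forall_eq_or_imp, Function.update_self] at hT
          obtain ⟨⟨h3, h1⟩, _, h2⟩ := hT
          have hyu : y ≠ u := hne y hy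
          have h4 := h1 y hy
          rw [Function.update_of_ne hyu] at h4
          exact hyu (h2 hfl (by rw [h4, h3, hyb]))
        · have hci : (insert u Y).card = Y.card + 1 := Finset.card_insert_of_notMem huY
          have h5 := ih (insert u Y) (insert (b 1) (insert (b 0) X)) (Function.update T₀ u b)
            (by rw [hci]; omega)
            (by
              intro y hy
              rw [Finset.mem_insert] at hy
              apply Finset.mem_insert_of_mem
              apply Finset.mem_insert_of_mem
              rcases hy with rfl | hy
              · exact huX
              · exact hYX hy)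
            (Finset.mem_insert_of_mem (Finset.mem_insert_of_mem ho))
            (by
              intro y hy a
              rw [Finset.mem_insert] at hy
              rcases hy with rfl | hy
              · rw [Function.update_self]
                fin_cases a
                · simp
                · simp
              · rw [Function.update_of_ne (hne y hy)]
                exact Finset.mem_insert_of_mem (Finset.mem_insert_of_mem (hX y hy a)))
            (by
              intro T hT x hx
              have hTu : T u = b := by
                have := hT u (Finset.mem_insert_self _ _)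
                rwa [Function.update_self] at this
              have hTY : ∀ y ∈ Y, T y = T₀ y := by
                intro y hy
                have := hT y (Finset.mem_insert_of_mem hy)
                rwa [Function.update_of_ne (hne y hy)] at this
              have hr := hreach T hTY
              obtain ⟨w, hw⟩ := hr u huX
              rw [Finset.mem_insert, Finset.mem_insert] at hx
              rcases hx with rfl | rfl | hx
              · exact ⟨w ++ [1], by rw [run_append_one, hw, hTu]⟩
              · exact ⟨w ++ [0], by rw [run_append_one, hw, hTu]⟩
              · exact hr x hx)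
            (by
              intro hfl
              rw [Finset.coe_insert, Set.injOn_insert (by exact_mod_cast huY)]
              have hup : ∀ y ∈ (Y : Set V), Function.update T₀ u b y = T₀ y := by
                intro y hy
                exact Function.update_of_ne (hne y (by exact_mod_cast hy)) _ _
              refine ⟨?_, ?_⟩
              · intro y hy y' hy' h
                rw [hup y hy, hup y' hy'] at h
                exact hinj hfl hy hy' h
              · rw [Function.update_self]
                rintro ⟨y, hy, h⟩
                rw [hup y hy] at h
                apply hb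
                rw [hS, if_pos hfl, Finset.mem_image]
                exact ⟨y, by exact_mod_cast hy, h⟩)
          rw [h5, hci]
      have hsum : (Ext fl o Y T₀).card
          = ∑ b : Fin 2 → V, if b ∈ S then 0 else F (insert (b 1) (insert (b 0) X)).card := by
        rw [Finset.card_eq_sum_card_fiberwise (f := fun T => T u) (t := univ)
          (fun _ _ => Finset.mem_univ _)]
        exact Finset.sum_congr rfl (fun b _ => hfib b)
      have htot : (∑ b : Fin 2 → V, if b ∈ S then 0 else F (insert (b 1) (insert (b 0) X)).card)
          + cc fl Y.card * F X.card
          = ∑ b : Fin 2 → V, F (insert (b 1) (insert (b 0) X)).card := by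
        have hScard : S.card = cc fl Y.card := by
          by_cases hfl : fl
          · rw [hS, if_pos hfl, cc, if_pos hfl, Finset.card_image_of_injOn (hinj hfl)]
          · rw [hS, if_neg hfl, cc, if_neg hfl]; rfl
        have hSF : ∑ b ∈ S, F (insert (b 1) (insert (b 0) X)).card = cc fl Y.card * F X.card := by
          rw [← hScard, ← smul_eq_mul, ← Finset.sum_const]
          apply Finset.sum_congr rfl
          intro b hb
          have hfl : fl := by
            by_contra h
            rw [hS, if_neg h] at hb
            simp at hb
          rw [hS, if_pos hfl, Finset.mem_image] at hb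
          obtain ⟨y, hy, rfl⟩ := hb
          rw [Finset.insert_eq_of_mem (hX y hy 0), Finset.insert_eq_of_mem (hX y hy 1)]
        rw [← hSF]
        have h6 : (∑ b : Fin 2 → V, if b ∈ S then 0 else F (insert (b 1) (insert (b 0) X)).card)
            = ∑ b ∈ univ \ S, F (insert (b 1) (insert (b 0) X)).card := by
          rw [← Finset.sum_filter_add_sum_filter_not univ (· ∈ S)
            (fun b => if b ∈ S then 0 else F (insert (b 1) (insert (b 0) X)).card)]
          have h7 : ∑ b ∈ univ.filter (· ∈ S),
              (if b ∈ S then 0 else F (insert (b 1) (insert (b 0) X)).card) = 0 := by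
            apply Finset.sum_eq_zero
            intro b hb
            rw [if_pos (Finset.mem_filter.1 hb).2]
          rw [h7, zero_add]
          apply Finset.sum_congr
          · ext b; simp
          · intro b hb
            rw [if_neg (by
              rw [Finset.mem_sdiff] at hb
              exact hb.2)]
        rw [h6, Finset.sum_sdiff (Finset.subset_univ S)]
      rw [sum_rows] at htot
      rw [← hsum] at htot
      -- the algebra
      have hiz : Y.card + 1 ≤ X.card := hlt
      have hcz : cc fl Y.card ≤ X.card^2 := by
        have : cc fl Y.card ≤ Y.card := by unfold cc; split_ifs <;> omega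
        nlinarith
      have hQ : Q n (cc fl) (m+1) Y.card X.card
          = (X.card^2 - cc fl Y.card) * Q n (cc fl) m (Y.card+1) X.card
            + (2*X.card+1) * Q n (cc fl) m (Y.card+1) (X.card+1)
            + Q n (cc fl) m (Y.card+1) (X.card+2) := by
        simp only [Q]
        rw [if_pos hiz]
      have hF0 : F X.card = (n - X.card).factorial * Q n (cc fl) m (Y.card + 1) X.card := rfl
      have hF1 : (n - X.card) * F (X.card + 1)
          = (n - X.card).factorial * Q n (cc fl) m (Y.card + 1) (X.card + 1) := by
        change (n - X.card) * ((n - (X.card+1)).factorial * Q n (cc fl) m (Y.card + 1) (X.card+1)) = _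
        rcases Nat.lt_or_ge X.card n with h | h
        · obtain ⟨d, hd⟩ : ∃ d, n = X.card + d + 1 := ⟨n - X.card - 1, by omega⟩
          have e1 : n - X.card = d + 1 := by omega
          have e2 : n - (X.card + 1) = d := by omega
          rw [e1, e2, Nat.factorial_succ]; ring
        · rw [Q_zero_of_lt n (cc fl) m _ (X.card+1) (by omega)]; simp
      have hF2 : (n - X.card) * (n - X.card - 1) * F (X.card + 2)
          = (n - X.card).factorial * Q n (cc fl) m (Y.card + 1) (X.card + 2) := by
        change (n - X.card) * (n - X.card - 1) *
          ((n - (X.card+2)).factorial * Q n (cc fl) m (Y.card + 1) (X.card+2)) = _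
        rcases Nat.lt_or_ge (X.card + 1) n with h | h
        · obtain ⟨d, hd⟩ : ∃ d, n = X.card + d + 2 := ⟨n - X.card - 2, by omega⟩
          have e1 : n - X.card = d + 1 + 1 := by omega
          have e2 : n - (X.card + 2) = d := by omega
          rw [e1, e2, Nat.factorial_succ, Nat.factorial_succ]
          have e3 : d + 1 + 1 - 1 = d + 1 := by omega
          rw [e3]; ring
        · rw [Q_zero_of_lt n (cc fl) m _ (X.card+2) (by omega)]; simp
      rw [hQ]
      obtain ⟨r, hr⟩ : ∃ r, X.card^2 = r + cc fl Y.card := ⟨X.card^2 - cc fl Y.card, by omega⟩
      have hr' : X.card^2 - cc fl Y.card = r := by omega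
      rw [hr']
      have hmul : (2*X.card+1) * (n - X.card) * F (X.card + 1)
          = (2*X.card+1) * ((n - X.card) * F (X.card + 1)) := by ring
      rw [hr, hmul, hF1, hF2, add_mul] at htot
      rw [hF0] at htot
      have : (Ext fl o Y T₀).card = r * ((n - X.card).factorial * Q n (cc fl) m (Y.card + 1) X.card)
          + (2*X.card+1) * ((n - X.card).factorial * Q n (cc fl) m (Y.card + 1) (X.card + 1))
          + (n - X.card).factorial * Q n (cc fl) m (Y.card + 1) (X.card + 2) := by omega
      rw [this]
      ring

/-- the number of accessible transition functions. -/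
theorem count_acc (o : V) :
    Set.ncard {T : V → Fin 2 → V | RA.Acc T o}
      = (Fintype.card V - 1).factorial * Q (Fintype.card V) (fun _ => 0) (Fintype.card V) 0 1 := by
  classical
  have h := count_ext False o (Fintype.card V) ∅ {o} (fun v _ => v) (by simp) (by simp) (by simp)
    (by simp) (fun T _ x hx => ⟨[], by rw [Finset.mem_singleton] at hx; rw [hx]; rfl⟩) (by simp)
  have e1 : Set.ncard {T : V → Fin 2 → V | RA.Acc T o} = (Ext False o ∅ (fun v _ => v)).card := by
    rw [← Set.ncard_coe_finset]
    congr 1
    ext T
    simp [Ext]
  have e2 : (cc False) = fun _ => 0 := by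
    funext i; simp [cc]
  rw [e1, h, e2]
  simp

/-- the number of accessible transition functions with pairwise distinct rows. -/
theorem count_inj (o : V) :
    Set.ncard {T : V → Fin 2 → V | RA.Acc T o ∧ Function.Injective T}
      = (Fintype.card V - 1).factorial * Q (Fintype.card V) (fun i => i) (Fintype.card V) 0 1 := by
  classical
  have h := count_ext True o (Fintype.card V) ∅ {o} (fun v _ => v) (by simp) (by simp) (by simp)
    (by simp) (fun T _ x hx => ⟨[], by rw [Finset.mem_singleton] at hx; rw [hx]; rfl⟩) (by simp)
  have e1 : Set.ncard {T : V → Fin 2 → V | RA.Acc T o ∧ Function.Injective T}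
      = (Ext True o ∅ (fun v _ => v)).card := by
    rw [← Set.ncard_coe_finset]
    congr 1
    ext T
    simp [Ext]
  have e2 : (cc True) = fun i => i := by
    funext i; simp [cc]
  rw [e1, h, e2]
  simp

end Pool.Agent.KS6_31.AM
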