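import Pool.Agent.KS6_31.AM.Compare

set_option autoImplicit false

/-!
A subexponential lower bound for the total weight of the paths above the diagonal.
-/

namespace Pool.Agent.KS6_31.AM

open Finset

theorem new_le_K (N : ℕ) (f : ℕ → ℝ) (h : ∀ z ≤ N, 0 ≤ f z) (z : ℕ) (hz : z ≤ N) :
    (((2*(z:ℝ)+1)*(N - z)) / (N:ℝ)^2) * f (z+1) ≤ K N f z := by
  have h1 := K_nonneg N (fun y => if y = z+1 then 0 else f y) (fun y hy => by
    split_ifs
    · exact le_rfl
    · exact h y hy) z hz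
  have h2 : K N (fun y => if y = z+1 then 0 else f y) z
      = K N f z - (((2*(z:ℝ)+1)*(N - z)) / (N:ℝ)^2) * f (z+1) := by
    unfold K
    simp
    ring
  linarith

theorem new2_le_K (N : ℕ) (f : ℕ → ℝ) (h : ∀ z ≤ N, 0 ≤ f z) (z : ℕ) (hz : z ≤ N) :
    ((((N:ℝ) - z)*(N - z - 1)) / (N:ℝ)^2) * f (z+2) ≤ K N f z := by
  have h1 := K_nonneg N (fun y => if y = z+2 then 0 else f y) (fun y hy => by
    split_ifs
    · exact le_rfl
    · exact h y hy) z hz
  have h2 : K N (fun y => if y = z+2 then 0 else f y) z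
      = K N f z - ((((N:ℝ) - z)*(N - z - 1)) / (N:ℝ)^2) * f (z+2) := by
    unfold K
    simp
    ring
  linarith

theorem V0_succ' (N n m i z : ℕ) (h : i + 1 ≤ z) : V0 N n (m+1) i z = K N (V0 N n m (i+1)) z := by
  rw [V0_succ, if_pos h]

/-- the last `L` steps. -/
theorem end_lower (N n : ℕ) (κ : ℝ) (hn : n ≤ N) (hκ0 : 0 ≤ κ)
    (hκ1 : κ ≤ (n:ℝ)^2/(N:ℝ)^2) (hκ2 : κ ≤ (n * ((N:ℝ) - n)) / (N:ℝ)^2) (L : ℕ) :
    ∀ i z, i + L = n → n ≤ 2 * i + 2 → min (i+1) n ≤ z → z ≤ n → κ^L ≤ V0 N n L i z := by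
  induction L with
  | zero =>
    intro i z hi _ hz1 hz2
    have : z = n := by omega
    simp [V0, V, this]
  | succ L ih =>
    intro i z hi h2i hz1 hz2
    have hiz : i + 1 ≤ z := by omega
    rw [V0_succ' N n L i z hiz]
    rcases Nat.lt_or_ge z n with hlt | hge
    · have h1 := new_le_K N (V0 N n L (i+1)) (fun z hz => V0_nonneg N n _ _ z hz) z (by omega)
      have h2 := ih (i+1) (z+1) (by omega) (by omega) (by omega) (by omega)
      refine le_trans ?_ h1
      rw [pow_succ, mul_comm]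
      apply mul_le_mul _ h2 (by positivity) _
      · refine hκ2.trans ?_
        apply div_le_div_of_nonneg_right _ (by positivity)
        have e1 : (n:ℝ) ≤ 2*(z:ℝ)+1 := by
          have : n ≤ 2*z+1 := by omega
          exact_mod_cast this
        have e2 : (z:ℝ) ≤ n := by exact_mod_cast hz2
        have e3 : (n:ℝ) ≤ N := by exact_mod_cast hn
        apply mul_le_mul e1 (by linarith) (by linarith) (by positivity)
      · apply div_nonneg _ (by positivity)
        have e2 : (z:ℝ) ≤ n := by exact_mod_cast hz2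
        have e3 : (n:ℝ) ≤ N := by exact_mod_cast hn
        exact mul_nonneg (by positivity) (by linarith)
    · have hzn : z = n := by omega
      have h1 := old_le_K N (V0 N n L (i+1)) (fun z hz => V0_nonneg N n _ _ z hz) z (by omega)
      have h2 := ih (i+1) z (by omega) (by omega) (by omega) (by omega)
      refine le_trans ?_ h1
      rw [pow_succ, mul_comm, hzn]
      rw [hzn] at h2
      exact mul_le_mul hκ1 h2 (by positivity) (by positivity)

/-- the probability to remain above the diagonal up to the time `i + m`, and to be at most `n` at the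
end. -/
noncomputable def G (N n : ℕ) : ℕ → ℕ → ℕ → ℝ
  | 0, i, z => if i + 1 ≤ z ∧ z ≤ n then 1 else 0
  | m+1, i, z => if i + 1 ≤ z then K N (G N n m (i+1)) z else 0

theorem V0_ge_G (N n : ℕ) (κ : ℝ) (hn : n ≤ N) (hκ0 : 0 ≤ κ)
    (hκ1 : κ ≤ (n:ℝ)^2/(N:ℝ)^2) (hκ2 : κ ≤ (n * ((N:ℝ) - n)) / (N:ℝ)^2) (L : ℕ) (hL : 2 * L ≤ n)
    (m : ℕ) : ∀ i, i + m + L = n → ∀ z ≤ N, κ^L * G N n m i z ≤ V0 N n (L+m) i z := by
  induction m with
  | zero =>
    intro i hi z hz
    simp only [G]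
    split_ifs with h
    · rw [mul_one]
      exact end_lower N n κ hn hκ0 hκ1 hκ2 L i z (by omega) (by omega) (by omega) h.2
    · rw [mul_zero]
      exact V0_nonneg N n _ _ z hz
  | succ m ih =>
    intro i hi z hz
    simp only [G]
    rw [← add_assoc, V0_succ]
    split_ifs with h
    · rw [← K_smul]
      exact K_mono N _ _ (ih (i+1) (by omega)) z hz
    · simp

theorem iter_nonneg (N : ℕ) (f : ℕ → ℝ) (h : ∀ z ≤ N, 0 ≤ f z) (j : ℕ) :
    ∀ z ≤ N, 0 ≤ (K N)^[j] f z := by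
  induction j with
  | zero => simpa using h
  | succ j ih =>
    intro z hz
    rw [Function.iterate_succ_apply']
    exact K_nonneg N _ ih z hz

theorem G_ge (N n : ℕ) (hN : 1 ≤ N) (m : ℕ) : ∀ i, ∀ z ≤ N,
    1 - ∑ j ∈ range (m+1), (K N)^[j] (fun y => if y ≤ i + j then 1 else 0) z
      - (K N)^[m] (fun y => if n < y then 1 else 0) z ≤ G N n m i z := by
  induction m with
  | zero =>
    intro i z hz
    simp only [zero_add, range_one, sum_singleton, Function.iterate_zero, id, G, add_zero]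
    rcases Nat.lt_or_ge i z with h1 | h1
    · rcases Nat.lt_or_ge n z with h2 | h2
      · rw [if_neg (by omega), if_pos h2, if_neg (by omega)]; norm_num
      · rw [if_neg (by omega), if_neg (by omega), if_pos ⟨by omega, h2⟩]; norm_num
    · rw [if_pos h1]
      split_ifs <;> norm_num
  | succ m ih =>
    intro i z hz
    rw [Finset.sum_range_succ']
    simp only [G]
    have hn1 : 0 ≤ (K N)^[m+1] (fun y => if n < y then 1 else 0) z :=
      iter_nonneg N _ (fun y _ => by split_ifs <;> norm_num) _ z hz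
    have hn2 : 0 ≤ ∑ j ∈ range (m+1), (K N)^[j+1] (fun y => if y ≤ i + (j+1) then 1 else 0) z :=
      Finset.sum_nonneg fun j _ => iter_nonneg N _ (fun y _ => by split_ifs <;> norm_num) _ z hz
    simp only [Function.iterate_zero, id, add_zero]
    split_ifs with h1 h2 h2
    · omega
    · linarith
    · have h3 := K_mono N _ _ (ih (i+1)) z hz
      rw [K_sub, K_sub, K_const N hN, K_sum] at h3
      have h4 : ∑ j ∈ range (m+1), K N ((K N)^[j] (fun y => if y ≤ i + 1 + j then 1 else 0)) z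
          = ∑ j ∈ range (m+1), (K N)^[j+1] (fun y => if y ≤ i + (j+1) then 1 else 0) z := by
        apply Finset.sum_congr rfl
        intro j _
        rw [Function.iterate_succ_apply']
        have : i + 1 + j = i + (j+1) := by ring
        rw [this]
      rw [h4] at h3
      rw [Function.iterate_succ_apply' (K N) m]
      linarith
    · omega

/-- the first `J` steps. -/
theorem start_lower (N n m J : ℕ) (hJ : 2 * J + 1 ≤ N) (d : ℕ) : ∀ i, i + d = J →
    ((((N:ℝ) - (2*J+1)) / N)^2)^d * V0 N n m J (2*J+1) ≤ V0 N n (m+d) i (2*i+1) := by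
  induction d with
  | zero => intro i hi
            have : i = J := by omega
            subst this; simp
  | succ d ih =>
    intro i hi
    rw [← add_assoc, V0_succ' N n (m+d) i (2*i+1) (by omega)]
    have h1 := new2_le_K N (V0 N n (m+d) (i+1)) (fun z hz => V0_nonneg N n _ _ z hz) (2*i+1) (by omega)
    refine le_trans ?_ h1
    have h2 := ih (i+1) (by omega)
    have e : 2 * i + 1 + 2 = 2 * (i+1) + 1 := by ring
    rw [e, pow_succ, mul_comm _ ((((N:ℝ) - (2*J+1)) / N)^2), mul_assoc]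
    have hJR : (2*(J:ℝ)+1) ≤ N := by exact_mod_cast hJ
    have hiR : (i:ℝ) + 1 ≤ J := by
      have : i + 1 ≤ J := by omega
      exact_mod_cast this
    apply mul_le_mul _ h2 _ _
    · rw [div_pow]
      apply div_le_div_of_nonneg_right _ (by positivity)
      push_cast
      rw [sq]
      apply mul_le_mul (by linarith) (by linarith) (by linarith) (by linarith)
    · apply mul_nonneg (by positivity) (V0_nonneg N n _ _ _ hJ)
    · apply div_nonneg _ (by positivity)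
      push_cast
      apply mul_nonneg (by linarith) (by linarith)

theorem start_half (N J : ℕ) (hJ : 4 * J * (2*J+1) + 1 ≤ N) :
    (1:ℝ)/2 ≤ ((((N:ℝ) - (2*J+1)) / N)^2)^J := by
  have hJR : 4 * (J:ℝ) * (2*J+1) + 1 ≤ N := by exact_mod_cast hJ
  have hN0 : (0:ℝ) < N := by
    have : (0:ℝ) ≤ 4 * (J:ℝ) * (2*J+1) := by positivity
    linarith
  rw [← pow_mul]
  rcases Nat.eq_zero_or_pos J with h | h
  · subst h; norm_num
  · have hJ1 : (1:ℝ) ≤ J := by exact_mod_cast h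
    have e : ((N:ℝ) - (2*J+1)) / N = 1 + (-((2*J+1)/N)) := by field_simp; ring
    rw [e]
    have h1 : (2*(J:ℝ)+1)/N ≤ 1 := by
      rw [div_le_one hN0]
      nlinarith
    have h2 := one_add_mul_le_pow (a := -((2*(J:ℝ)+1)/N)) (by linarith) (2*J)
    refine le_trans ?_ h2
    push_cast
    have h3 : 2 * (J:ℝ) * ((2*J+1)/N) ≤ 1/2 := by
      rw [mul_div_assoc', div_le_div_iff₀ hN0 (by norm_num)]
      linarith
    linarith

/-! ### The drift -/

theorem omega_drift (ω : ℝ) (h0 : 0 < ω) (h1 : ω < 1) (hω : 1 - ω = Real.exp (-(2*ω))) :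
    ∃ c : ℝ, 0 < c ∧ c ≤ 1 ∧ ∀ x, 0 ≤ x → x ≤ ω → c * min x (ω - x) ≤ 1 - x - Real.exp (-(2*x)) := by
  set e := Real.exp (-ω) with he
  have he0 : 0 < e := Real.exp_pos _
  have hee : e^2 = 1 - ω := by
    rw [hω, he, ← Real.exp_nat_mul]; congr 1; push_cast; ring
  have hm : e < 1 - ω/2 := by
    have : e^2 < (1 - ω/2)^2 := by rw [hee]; nlinarith
    exact lt_of_pow_lt_pow_left₀ 2 (by linarith) this
  set D := 1 - ω/2 - e with hD
  have hD0 : 0 < D := by linarith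
  refine ⟨min 1 (D / (ω/2)), lt_min one_pos (by positivity), min_le_left _ _, ?_⟩
  intro x hx0 hx1
  have hc2 : min 1 (D / (ω/2)) ≤ D / (ω/2) := min_le_right _ _
  have hmin0 : 0 ≤ min x (ω - x) := le_min hx0 (by linarith)
  refine (mul_le_mul_of_nonneg_right hc2 hmin0).trans ?_
  have hDe : D / (ω/2) * (ω/2) = D := by field_simp
  rcases le_total x (ω/2) with h | h
  · -- between `0` and `ω / 2`
    have h2 : D / (ω/2) * min x (ω - x) ≤ D / (ω/2) * x :=
      mul_le_mul_of_nonneg_left (min_le_left _ _) (by positivity)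
    refine h2.trans ?_
    set a := x / (ω/2) with ha
    have ha0 : 0 ≤ a := by positivity
    have ha1 : a ≤ 1 := by rw [ha, div_le_one (by positivity)]; exact h
    have hax : a * (ω/2) = x := by rw [ha]; field_simp
    have h3 := convexOn_exp.2 (Set.mem_univ (-ω)) (Set.mem_univ 0) ha0 (by linarith : 0 ≤ 1 - a) (by ring)
    simp only [smul_eq_mul, mul_zero, add_zero, Real.exp_zero, mul_one] at h3
    have e1 : a * -ω = -(2*x) := by rw [← hax]; ring
    rw [e1, ← he] at h3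
    have e2 : D / (ω/2) * x = a * D := by rw [ha]; field_simp
    rw [e2, hD]
    nlinarith
  · have h2 : D / (ω/2) * min x (ω - x) ≤ D / (ω/2) * (ω - x) :=
      mul_le_mul_of_nonneg_left (min_le_right _ _) (by positivity)
    refine h2.trans ?_
    set a := (ω - x) / (ω/2) with ha
    have ha0 : 0 ≤ a := div_nonneg (by linarith) (by positivity)
    have ha1 : a ≤ 1 := by rw [ha, div_le_one (by positivity)]; linarith
    have hax : a * (ω/2) = ω - x := by rw [ha]; field_simp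
    have h3 := convexOn_exp.2 (Set.mem_univ (-ω)) (Set.mem_univ (-(2*ω))) ha0 (by linarith : 0 ≤ 1 - a)
      (by ring)
    simp only [smul_eq_mul] at h3
    have e1 : a * -ω + (1 - a) * -(2*ω) = -(2*x) := by linear_combination 2 * hax
    rw [e1, ← he, ← hω] at h3
    have e2 : D / (ω/2) * (ω - x) = a * D := by rw [ha]; field_simp
    rw [e2, hD]
    nlinarith

/-- the mean is above the diagonal. -/
theorem mean_lower (N J j : ℕ) (hN : 1 ≤ N) (hJ : 2 * J + 1 ≤ N) :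
    (N:ℝ) * (1 - ((J + j : ℕ):ℝ)/N - Real.exp (-(2 * (((J + j : ℕ):ℝ)/N))))
      ≤ (N:ℝ) - ((J + j : ℕ):ℝ) - ((1 - 1/(N:ℝ))^2)^j * (N - ((2*J+1:ℕ):ℝ)) := by
  have hN0 : (0:ℝ) < N := by exact_mod_cast hN
  have hJR : (2*(J:ℝ)+1) ≤ N := by exact_mod_cast hJ
  have h1 : (1 - 1/(N:ℝ)) ≤ Real.exp (-(1/(N:ℝ))) := by
    have := Real.add_one_le_exp (-(1/(N:ℝ))); linarith
  have h10 : 0 ≤ 1 - 1/(N:ℝ) := by
    have : 1/(N:ℝ) ≤ 1 := by rw [div_le_one hN0]; exact_mod_cast hN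
    linarith
  have h2 : ((1 - 1/(N:ℝ))^2)^j ≤ Real.exp (-(2*j/(N:ℝ))) := by
    rw [← pow_mul]
    calc (1 - 1/(N:ℝ))^(2*j) ≤ (Real.exp (-(1/(N:ℝ))))^(2*j) := pow_le_pow_left₀ h10 h1 _
      _ = Real.exp (-(2*j/(N:ℝ))) := by
        rw [← Real.exp_nat_mul]; congr 1; push_cast; ring
  have h3 : (N:ℝ) - ((2*J+1:ℕ):ℝ) ≤ N * Real.exp (-((2*J+1)/(N:ℝ))) := by
    have h4 := Real.add_one_le_exp (-((2*(J:ℝ)+1)/(N:ℝ)))
    have h5 := mul_le_mul_of_nonneg_left h4 hN0.le
    refine le_trans (le_of_eq ?_) h5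
    push_cast
    field_simp
    ring
  have h6 : ((1 - 1/(N:ℝ))^2)^j * (N - ((2*J+1:ℕ):ℝ))
      ≤ Real.exp (-(2*j/(N:ℝ))) * (N * Real.exp (-((2*J+1)/(N:ℝ)))) := by
    apply mul_le_mul h2 h3 _ (Real.exp_pos _).le
    push_cast; linarith
  have h7 : Real.exp (-(2*j/(N:ℝ))) * (N * Real.exp (-((2*J+1)/(N:ℝ))))
      ≤ N * Real.exp (-(2 * (((J + j : ℕ):ℝ)/N))) := by
    have e : Real.exp (-(2*j/(N:ℝ))) * (N * Real.exp (-((2*J+1)/(N:ℝ))))
        = N * Real.exp (-(2*j/(N:ℝ)) + -((2*J+1)/(N:ℝ))) := by rw [Real.exp_add]; ring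
    rw [e]
    apply mul_le_mul_of_nonneg_left _ hN0.le
    apply Real.exp_le_exp.2
    push_cast
    have : 0 < 1/(N:ℝ) := by positivity
    have e2 : -(2*(j:ℝ)/(N:ℝ)) + -((2*J+1)/(N:ℝ)) = -(2 * (((J:ℝ)+j)/N)) - 1/(N:ℝ) := by
      field_simp; ring
    linarith
  have e3 : (N:ℝ) * (1 - ((J + j : ℕ):ℝ)/N - Real.exp (-(2 * (((J + j : ℕ):ℝ)/N))))
      = N - ((J + j : ℕ):ℝ) - N * Real.exp (-(2 * (((J + j : ℕ):ℝ)/N))) := by field_simp
  rw [e3]
  linarith

/-- the probability to be below the diagonal at time `J + j`. -/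
theorem term_bound (ω c : ℝ) (hc0 : 0 < c) (hc1 : c ≤ 1)
    (hc : ∀ x, 0 ≤ x → x ≤ ω → c * min x (ω - x) ≤ 1 - x - Real.exp (-(2*x)))
    (N n J L : ℕ) (hN : 1 ≤ N) (hJ0 : 1 ≤ J) (hJ : 2 * J + 1 ≤ N) (hωN : (n:ℝ) ≤ ω * N) (j : ℕ)
    (hj : J + j + L ≤ n) :
    (K N)^[j] (fun y => if y ≤ J + j then 1 else 0) (2*J+1)
      ≤ Real.exp (-(c^2/16)) ^ (J + j) + Real.exp (-(c^2 * L^2/(16*n))) := by
  have hN0 : (0:ℝ) < N := by exact_mod_cast hN
  set l : ℝ := ((J + j : ℕ):ℝ) with hl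
  have hl1 : 1 ≤ l := by rw [hl]; exact_mod_cast (by omega : 1 ≤ J + j)
  have hjl : (j:ℝ) ≤ l := by rw [hl]; exact_mod_cast (by omega : j ≤ J + j)
  have hlL : l + L ≤ n := by rw [hl]; exact_mod_cast hj
  have hL0 : (0:ℝ) ≤ L := by positivity
  set σ : ℝ := c * min l (n - l) with hσ
  have hmin0 : 0 ≤ min l ((n:ℝ) - l) := le_min (by linarith) (by linarith)
  have hσ0 : 0 ≤ σ := mul_nonneg hc0.le hmin0
  have hσl : σ ≤ l := by
    calc σ ≤ 1 * l := mul_le_mul hc1 (min_le_left _ _) hmin0 (by norm_num)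
      _ = l := one_mul _
  -- the drift
  have h1 := hc (l/N) (by positivity) (by
    rw [div_le_iff₀ hN0]; linarith)
  have h2 : σ ≤ (N:ℝ) * (1 - l/N - Real.exp (-(2 * (l/N)))) := by
    have h3 := mul_le_mul_of_nonneg_left h1 hN0.le
    refine le_trans ?_ h3
    have h4 : (N:ℝ) * (c * min (l/N) (ω - l/N)) = c * ((N:ℝ) * min (l/N) (ω - l/N)) := by ring
    rw [h4]
    apply mul_le_mul_of_nonneg_left _ hc0.le
    rw [mul_min_of_nonneg _ _ hN0.le]
    apply le_min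
    · refine (min_le_left _ _).trans (le_of_eq ?_)
      field_simp
    · refine (min_le_right _ _).trans ?_
      have : (N:ℝ) * (ω - l/N) = ω * N - l := by field_simp
      rw [this]; linarith
  have h5 := mean_lower N J j hN hJ
  rw [← hl] at h5
  -- the exponential moment
  have h6 := lower_tail N hN (σ/(8*l)) (by positivity) (by
    rw [div_le_div_iff₀ (by positivity) (by norm_num)]; linarith) j (J+j) (2*J+1) hJ
  refine h6.trans ?_
  rw [← hl]
  have h7 : 4 * (j:ℝ) * (σ/(8*l))^2 - σ/(8*l) * ((N:ℝ) - l - ((1 - 1/(N:ℝ))^2)^j * (N - ((2*J+1:ℕ):ℝ)))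
      ≤ -(σ^2/(16*l)) := by
    have h8 : 4 * (j:ℝ) * (σ/(8*l))^2 ≤ 4 * l * (σ/(8*l))^2 :=
      mul_le_mul_of_nonneg_right (by linarith) (by positivity)
    have h9 : σ/(8*l) * σ ≤ σ/(8*l) * ((N:ℝ) - l - ((1 - 1/(N:ℝ))^2)^j * (N - ((2*J+1:ℕ):ℝ))) :=
      mul_le_mul_of_nonneg_left (h2.trans h5) (by positivity)
    have h10 : 4 * l * (σ/(8*l))^2 - σ/(8*l) * σ = -(σ^2/(16*l)) := by field_simp; ring
    linarith
  refine (Real.exp_le_exp.2 h7).trans ?_
  rcases le_total l ((n:ℝ) - l) with h | h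
  · have e : σ = c * l := by rw [hσ, min_eq_left h]
    have e2 : Real.exp (-(σ^2/(16*l))) = Real.exp (-(c^2/16)) ^ (J + j) := by
      rw [← Real.exp_nat_mul]
      congr 1
      rw [← hl, e]
      field_simp
    rw [e2]
    have := Real.exp_pos (-(c^2 * L^2/(16*n)))
    linarith
  · have e : σ = c * (n - l) := by rw [hσ, min_eq_right h]
    have hn0 : (0:ℝ) < n := by linarith
    have e2 : Real.exp (-(σ^2/(16*l))) ≤ Real.exp (-(c^2 * L^2/(16*n))) := by
      apply Real.exp_le_exp.2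
      apply neg_le_neg
      rw [e]
      have h11 : c^2 * (L:ℝ)^2 ≤ (c * (n - l))^2 := by
        rw [mul_pow]
        apply mul_le_mul_of_nonneg_left _ (by positivity)
        exact pow_le_pow_left₀ hL0 (by linarith) 2
      apply div_le_div₀ (by positivity) h11 (by positivity) (by linarith)
    have := pow_pos (Real.exp_pos (-(c^2/16))) (J + j)
    linarith

/-- the probability to be above `n` at time `J + m = n - L`. -/
theorem top_bound (ω : ℝ) (h0 : 0 < ω) (h1 : ω < 1) (hω : 1 - ω = Real.exp (-(2*ω)))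
    (N n J L m : ℕ) (hN : 2 ≤ N) (hJ : 2 * J + 1 ≤ N) (hωN : (n:ℝ) ≤ ω * N)
    (hωN' : ω * N ≤ n + ω) (hm : J + m + L = n) (hL : 2*(J:ℝ) + 4 ≤ (1-ω) * L) :
    (K N)^[m] (fun y => if n < y then 1 else 0) (2*J+1)
      ≤ Real.exp (-((1-ω)^2 * L^2/(16*n))) := by
  have hN0 : (0:ℝ) < N := by exact_mod_cast (by omega : 0 < N)
  have hN2 : (2:ℝ) ≤ N := by exact_mod_cast hN
  have hJR : (2*(J:ℝ)+1) ≤ N := by exact_mod_cast hJ
  have hmR : (J:ℝ) + m + L = n := by exact_mod_cast hm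
  have hJ0 : (0:ℝ) ≤ J := by positivity
  have hm0 : (0:ℝ) ≤ m := by positivity
  have hL0 : (0:ℝ) ≤ L := by positivity
  have hLpos : (1:ℝ) ≤ L := by nlinarith
  have hn0 : (0:ℝ) < n := by linarith
  set σ : ℝ := (1-ω) * L with hσ
  have hσ0 : 0 ≤ σ := mul_nonneg (by linarith) hL0
  have hσn : σ ≤ n := by
    have : σ ≤ 1 * L := mul_le_mul_of_nonneg_right (by linarith) hL0
    linarith
  have h6 := upper_tail N (by omega) (σ/(8*n)) (by positivity) (by
    rw [div_le_div_iff₀ (by positivity) (by norm_num)]; linarith) m n (2*J+1) hJ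
  refine h6.trans (Real.exp_le_exp.2 ?_)
  -- the mean
  have h7 : Real.exp (-(1/((N:ℝ)-1))) ≤ 1 - 1/(N:ℝ) := by
    rw [Real.exp_neg]
    rw [inv_le_comm₀ (Real.exp_pos _) (by
      rw [sub_pos, div_lt_one hN0]; linarith)]
    have := Real.add_one_le_exp (1/((N:ℝ)-1))
    refine le_trans (le_of_eq ?_) this
    have hne : (N:ℝ) - 1 ≠ 0 := by linarith
    have hne' : (N:ℝ) ≠ 0 := hN0.ne'
    field_simp
    ring
  have h8 : Real.exp (-(2*m/((N:ℝ)-1))) ≤ ((1 - 1/(N:ℝ))^2)^m := by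
    rw [← pow_mul]
    calc Real.exp (-(2*m/((N:ℝ)-1))) = (Real.exp (-(1/((N:ℝ)-1))))^(2*m) := by
          rw [← Real.exp_nat_mul]; congr 1; push_cast; ring
      _ ≤ _ := pow_le_pow_left₀ (Real.exp_pos _).le h7 _
  have h9 : (1-ω) * (1 + 2*(L-1)/((N:ℝ)-1)) ≤ Real.exp (-(2*m/((N:ℝ)-1))) := by
    have e1 : Real.exp (-(2*m/((N:ℝ)-1))) = Real.exp (-(2*ω)) * Real.exp (2*ω - 2*m/((N:ℝ)-1)) := by
      rw [← Real.exp_add]; congr 1; ring
    rw [e1, hω]
    apply mul_le_mul_of_nonneg_left _ (Real.exp_pos _).le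
    have h10 := Real.add_one_le_exp (2*ω - 2*m/((N:ℝ)-1))
    refine le_trans ?_ h10
    have hNm : (0:ℝ) < N - 1 := by linarith
    have h11 : 2*((L:ℝ)-1)/((N:ℝ)-1) ≤ 2*ω - 2*m/((N:ℝ)-1) := by
      rw [le_sub_iff_add_le, ← add_div, div_le_iff₀ hNm]
      nlinarith
    linarith
  have h12 : σ ≤ ((1 - 1/(N:ℝ))^2)^m * (N - ((2*J+1:ℕ):ℝ)) - ((N:ℝ) - n) := by
    have hNm : (0:ℝ) < N - 1 := by linarith
    have hNJ : (0:ℝ) ≤ N - ((2*J+1:ℕ):ℝ) := by push_cast; linarith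
    have h13 : (1-ω) * (1 + 2*(L-1)/((N:ℝ)-1)) * (N - ((2*J+1:ℕ):ℝ))
        ≤ ((1 - 1/(N:ℝ))^2)^m * (N - ((2*J+1:ℕ):ℝ)) :=
      mul_le_mul_of_nonneg_right (h9.trans h8) hNJ
    -- `(1 - ω) (1 + 2 (L - 1)/(N - 1)) ≤ 1`
    have h14 : (1-ω) * (1 + 2*(L-1)/((N:ℝ)-1)) ≤ 1 := by
      refine (h9.trans ?_)
      apply Real.exp_le_one_iff.2
      have : 0 ≤ 2*(m:ℝ)/((N:ℝ)-1) := by positivity
      linarith
    have h15 : (1-ω) * (1 + 2*(L-1)/((N:ℝ)-1)) * (N - ((2*J+1:ℕ):ℝ))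
        ≥ (1-ω) * (1 + 2*(L-1)/((N:ℝ)-1)) * N - (2*J+1) := by
      push_cast
      nlinarith
    have h16 : (1-ω) * (1 + 2*(L-1)/((N:ℝ)-1)) * N ≥ (1-ω) * (N + 2*(L-1)) := by
      have h17 : (2*((L:ℝ)-1)) ≤ 2*(L-1)/((N:ℝ)-1) * N := by
        rw [div_mul_eq_mul_div, le_div_iff₀ hNm]
        nlinarith
      have h18 : (1 + 2*(L-1)/((N:ℝ)-1)) * N ≥ N + 2*(L-1) := by linarith
      have h19 := mul_le_mul_of_nonneg_left h18 (by linarith : 0 ≤ 1 - ω)
      linarith
    nlinarith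
  have h20 : 4 * (m:ℝ) * (σ/(8*n))^2 ≤ 4 * n * (σ/(8*n))^2 :=
    mul_le_mul_of_nonneg_right (by linarith) (by positivity)
  have h21 := mul_le_mul_of_nonneg_left h12 (by positivity : 0 ≤ σ/(8*(n:ℝ)))
  have h22 : 4 * (n:ℝ) * (σ/(8*n))^2 - σ/(8*n) * σ = -((1-ω)^2 * L^2/(16*n)) := by
    rw [hσ]; field_simp; ring
  linarith

end Pool.Agent.KS6_31.AM
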