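import Pool.Agent.KS6_31.AM.Ratio
import Pool.Agent.KS6_31.AM.Count
import Pool.Agent.KS6_31.AM.Pieces

set_option autoImplicit false

/-!
The limit of the proportion of the non-minimal pairs over two letters.
-/

namespace Pool.Agent.KS6_31.AM

open Finset RA Filter Topology

/-- the non-minimal pairs -/
def Nonmin (m k : ℕ) : Set ((Fin (m+1) → Fin k → Fin (m+1)) × Fin (m+1)) :=
  {x | RA.Acc x.1 0 ∧ ¬ ∀ p q, LE x.1 x.2 p q → p = q}

theorem ncard_all_pairs (m k : ℕ) :
    Set.ncard {x : (Fin (m+1) → Fin k → Fin (m+1)) × Fin (m+1) | RA.Acc x.1 0} = accN m k * (m+1) := by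
  have := ncard_prod_first (α := Fin (m+1) → Fin k → Fin (m+1)) (β := Fin (m+1)) {T | RA.Acc T 0}
  simpa [accN] using this

/-- upper bound: up to `o (1)` the reason is a pair of equal rows. -/
theorem nonmin_upper (k : ℕ) (hk : 2 ≤ k) : ∃ δ : ℕ → ℝ, Tendsto δ atTop (𝓝 0) ∧
    ∀ᶠ m : ℕ in atTop, ((Nonmin m k).ncard : ℝ) / ((accN m k : ℝ) * (m+1))
      ≤ ((Twin m k).ncard : ℝ) / (accN m k : ℝ) + δ m := by
  obtain ⟨C, m0, h⟩ := bad_pieces k hk
  refine ⟨fun m => C / ((m:ℝ)+1) + 1 / m + C / (Nat.log 2 (m+1) + 1 : ℕ) + (3/8:ℝ)^(m+1), ?_, ?_⟩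
  · have t1 : Tendsto (fun m : ℕ => (C:ℝ) / ((m:ℝ)+1)) atTop (𝓝 0) :=
      tendsto_const_nhds.div_atTop (tendsto_atTop_add_const_right _ _ tendsto_natCast_atTop_atTop)
    have t2 : Tendsto (fun m : ℕ => (1:ℝ) / m) atTop (𝓝 0) := tendsto_one_div_atTop_nhds_zero_nat
    have t3 : Tendsto (fun m : ℕ => (C:ℝ) / (Nat.log 2 (m+1) + 1 : ℕ)) atTop (𝓝 0) := by
      apply tendsto_const_nhds.div_atTop
      apply tendsto_natCast_atTop_atTop.comp
      apply tendsto_atTop_atTop.2
      intro b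
      refine ⟨2^b, fun a ha => ?_⟩
      have : b ≤ Nat.log 2 (a+1) := Nat.le_log_of_pow_le (by norm_num) (by omega)
      omega
    have t4 : Tendsto (fun m : ℕ => (3/8:ℝ)^(m+1)) atTop (𝓝 0) :=
      (tendsto_pow_atTop_nhds_zero_of_lt_one (by norm_num) (by norm_num)).comp
        (tendsto_add_atTop_nat 1)
    simpa using ((t1.add t2).add t3).add t4
  · filter_upwards [eventually_ge_atTop (m0+1)] with m hm
    obtain ⟨b2, b3, b4, b5, h2, h3, h4, h5, h6⟩ := h m (by omega)
    have hA : (0:ℝ) < accN m k := by exact_mod_cast accN_pos m k (by omega)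
    have hm1 : (0:ℝ) < m := by exact_mod_cast (by omega : 0 < m)
    have g2 : (b2:ℝ) ≤ C * accN m k / ((m:ℝ)+1) := by
      rw [le_div_iff₀ (by positivity)]
      have : ((m+1) * b2 : ℝ) ≤ C * accN m k := by exact_mod_cast h2
      nlinarith
    have g3 : (b3:ℝ) ≤ accN m k / m := by
      rw [le_div_iff₀ (by positivity)]
      have : (m * b3 : ℝ) ≤ accN m k := by exact_mod_cast h3
      nlinarith
    have g4 : (b4:ℝ) ≤ C * ((m:ℝ)+1) * accN m k / (Nat.log 2 (m+1) + 1 : ℕ) := by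
      rw [le_div_iff₀ (by positivity)]
      exact_mod_cast h4
    have g5 : (b5:ℝ) ≤ (3/8:ℝ)^(m+1) * accN m k := by
      have : (b5 * 8^(m+1) : ℝ) ≤ 3^(m+1) * accN m k := by exact_mod_cast h5
      rw [div_pow, div_mul_eq_mul_div, le_div_iff₀ (by positivity)]
      exact this
    have g6 : ((Nonmin m k).ncard : ℝ)
        ≤ (m+1) * ((Twin m k).ncard : ℝ) + (m+1) * b2 + (m+1) * b3 + b4 + b5 := by exact_mod_cast h6
    have g5' : (b5:ℝ) ≤ (3/8:ℝ)^(m+1) * accN m k * (m+1) := by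
      refine le_trans g5 ?_
      have : (0:ℝ) ≤ (3/8:ℝ)^(m+1) * accN m k := by positivity
      nlinarith
    have e2 : ((m:ℝ)+1) * b2 ≤ C / ((m:ℝ)+1) * (accN m k * (m+1)) := by
      calc ((m:ℝ)+1) * b2 ≤ ((m:ℝ)+1) * (C * accN m k / ((m:ℝ)+1)) := by gcongr
        _ = _ := by ring
    have e3 : ((m:ℝ)+1) * b3 ≤ 1 / m * (accN m k * (m+1)) := by
      calc ((m:ℝ)+1) * b3 ≤ ((m:ℝ)+1) * (accN m k / m) := by gcongr
        _ = _ := by ring
    have e4 : (b4:ℝ) ≤ C / (Nat.log 2 (m+1) + 1 : ℕ) * (accN m k * (m+1)) := by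
      refine le_trans g4 (le_of_eq ?_)
      ring
    have e1 : ((m:ℝ)+1) * ((Twin m k).ncard : ℝ)
        = ((Twin m k).ncard : ℝ) / (accN m k : ℝ) * (accN m k * (m+1)) := by
      field_simp
    rw [div_le_iff₀ (by positivity)]
    refine le_trans g6 ?_
    rw [e1]
    push_cast at e2 e3 e4 ⊢
    nlinarith

/-- two equal rows: the two states are equivalent, unless one of them is final. -/
theorem LE_of_twin {V : Type} {k : ℕ} (T : V → Fin k → V) (u v f : V) (h : T u = T v) (hu : u ≠ f)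
    (hv : v ≠ f) : LE T f u v := by
  intro w
  cases w with
  | nil => exact ⟨fun h => absurd h hu, fun h => absurd h hv⟩
  | cons a w => rw [run_cons, run_cons, h]

/-- lower bound. -/
theorem nonmin_lower (m k : ℕ) : (Twin m k).ncard * (m - 1) ≤ (Nonmin m k).ncard := by
  classical
  -- for each `T` at least `m - 1` final states
  have h1 : ∀ T ∈ Twin m k, m - 1 ≤ ((univ : Finset (Fin (m+1))).filter
      (fun f => ¬ ∀ p q, LE T f p q → p = q)).card := by
    rintro T ⟨_, u, v, huv, hT⟩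
    have h2 : (univ : Finset (Fin (m+1))) \ {u, v} ⊆ (univ : Finset (Fin (m+1))).filter
        (fun f => ¬ ∀ p q, LE T f p q → p = q) := by
      intro f hf
      rw [Finset.mem_sdiff, Finset.mem_insert, Finset.mem_singleton] at hf
      rw [Finset.mem_filter]
      refine ⟨Finset.mem_univ _, fun h => huv (h u v (LE_of_twin T u v f hT ?_ ?_))⟩
      · intro h; exact hf.2 (Or.inl h.symm)
      · intro h; exact hf.2 (Or.inr h.symm)
    refine le_trans ?_ (Finset.card_le_card h2)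
    rw [Finset.card_sdiff_of_subset (Finset.subset_univ _), Finset.card_univ, Fintype.card_fin,
      Finset.card_pair huv]
    omega
  have h3 : (Nonmin m k).ncard = ∑ T ∈ (univ : Finset (Fin (m+1) → Fin k → Fin (m+1))).filter
      (fun T => RA.Acc T 0), ((univ : Finset (Fin (m+1))).filter
      (fun f => ¬ ∀ p q, LE T f p q → p = q)).card := by
    have e1 : Nonmin m k = (((univ : Finset (Fin (m+1) → Fin k → Fin (m+1))).filter
        (fun T => RA.Acc T 0)).sigma (fun T => (univ : Finset (Fin (m+1))).filter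
      (fun f => ¬ ∀ p q, LE T f p q → p = q))).map
        (Equiv.sigmaEquivProd _ _).toEmbedding := by
      ext ⟨T, f⟩
      simp [Nonmin]
    rw [e1, Set.ncard_coe_finset, Finset.card_map, Finset.card_sigma]
  have h4 : (Twin m k).ncard = ((univ : Finset (Fin (m+1) → Fin k → Fin (m+1))).filter
      (fun T => T ∈ Twin m k)).card := by
    rw [← Set.ncard_coe_finset]; congr 1; ext; simp
  rw [h3, h4, ← smul_eq_mul, ← Finset.sum_const]
  refine le_trans (Finset.sum_le_sum (fun T hT => h1 T (Finset.mem_filter.1 hT).2))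
    (Finset.sum_le_sum_of_subset ?_)
  intro T hT
  rw [Finset.mem_filter] at hT ⊢
  exact ⟨hT.1, hT.2.1⟩

/-- the probability of two equal rows. -/
theorem twin_ratio (m : ℕ) : ((Twin m 2).ncard : ℝ) / (accN m 2 : ℝ)
    = 1 - (Q (m+1) (fun i => i) (m+1) 0 1 : ℝ) / (Q (m+1) (fun _ => 0) (m+1) 0 1 : ℝ) := by
  classical
  have hA : (0:ℝ) < accN m 2 := by exact_mod_cast accN_pos m 2 (by omega)
  have e0 : accN m 2 = m.factorial * Q (m+1) (fun _ => 0) (m+1) 0 1 := by
    have := count_acc (V := Fin (m+1)) 0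
    simpa [accN] using this
  have e1 : Set.ncard {T : Fin (m+1) → Fin 2 → Fin (m+1) | RA.Acc T 0 ∧ Function.Injective T}
      = m.factorial * Q (m+1) (fun i => i) (m+1) 0 1 := by
    have := count_inj (V := Fin (m+1)) 0
    simpa using this
  have e2 : (Twin m 2).ncard
      + Set.ncard {T : Fin (m+1) → Fin 2 → Fin (m+1) | RA.Acc T 0 ∧ Function.Injective T} = accN m 2 := by
    rw [accN, ← Set.ncard_union_eq _ (Set.toFinite _) (Set.toFinite _)]
    · congr 1
      ext T
      simp only [Twin, Set.mem_union, Set.mem_setOf_eq, Function.Injective]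
      constructor
      · rintro (h | h)
        · exact h.1
        · exact h.1
      · intro h
        by_cases h2 : ∃ u v, u ≠ v ∧ T u = T v
        · exact Or.inl ⟨h, h2⟩
        · right
          refine ⟨h, fun u v huv => ?_⟩
          by_contra hne
          exact h2 ⟨u, v, hne, huv⟩
    · rw [Set.disjoint_left]
      rintro T ⟨_, u, v, huv, hT⟩ ⟨_, h⟩
      exact huv (h hT)
  have hf : (m.factorial : ℝ) ≠ 0 := by exact_mod_cast (Nat.factorial_pos m).ne'
  have e0R : (accN m 2 : ℝ) = m.factorial * (Q (m+1) (fun _ => 0) (m+1) 0 1 : ℝ) := by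
    exact_mod_cast e0
  have hQ0 : (Q (m+1) (fun _ => 0) (m+1) 0 1 : ℝ) ≠ 0 := by
    intro h
    rw [h, mul_zero] at e0R
    exact hA.ne' e0R
  rw [e1] at e2
  have e2R : ((Twin m 2).ncard : ℝ) + m.factorial * (Q (m+1) (fun i => i) (m+1) 0 1 : ℝ)
      = m.factorial * (Q (m+1) (fun _ => 0) (m+1) 0 1 : ℝ) := by
    rw [← e0R]; exact_mod_cast e2
  have e3 : ((Twin m 2).ncard : ℝ) = m.factorial * (Q (m+1) (fun _ => 0) (m+1) 0 1 : ℝ)
      - m.factorial * (Q (m+1) (fun i => i) (m+1) 0 1 : ℝ) := by linarith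
  rw [e3, e0R]
  field_simp

theorem twin_tendsto (ω : ℝ) (h0 : 0 < ω) (h1 : ω < 1) (hω : 1 - ω = Real.exp (-(2*ω))) :
    Tendsto (fun m : ℕ => ((Twin m 2).ncard : ℝ) / (accN m 2 : ℝ)) atTop
      (𝓝 (1 - Real.exp (-(ω^2/2)))) := by
  have h2 := ((Q_ratio_tendsto ω h0 h1 hω).comp (tendsto_add_atTop_nat 1)).const_sub 1
  refine h2.congr fun m => ?_
  rw [twin_ratio]
  rfl

theorem nonmin_tendsto (ω : ℝ) (h0 : 0 < ω) (h1 : ω < 1) (hω : 1 - ω = Real.exp (-(2*ω))) :
    Tendsto (fun m : ℕ => ((Nonmin m 2).ncard : ℝ) / ((accN m 2 : ℝ) * (m+1))) atTop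
      (𝓝 (1 - Real.exp (-(ω^2/2)))) := by
  obtain ⟨δ, hδ, hup⟩ := nonmin_upper 2 le_rfl
  have ht := twin_tendsto ω h0 h1 hω
  have hU := ht.add hδ
  rw [add_zero] at hU
  have hfrac : Tendsto (fun m : ℕ => 1 - 2 / ((m:ℝ)+1)) atTop (𝓝 1) := by
    have : Tendsto (fun m : ℕ => (2:ℝ) / ((m:ℝ)+1)) atTop (𝓝 0) :=
      tendsto_const_nhds.div_atTop (tendsto_atTop_add_const_right _ _ tendsto_natCast_atTop_atTop)
    simpa using this.const_sub 1
  have hL := ht.mul hfrac
  rw [mul_one] at hL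
  refine tendsto_of_tendsto_of_tendsto_of_le_of_le' hL hU ?_ hup
  filter_upwards [eventually_ge_atTop 1] with m hm
  have hA : (0:ℝ) < accN m 2 := by exact_mod_cast accN_pos m 2 (by omega)
  have h3 := nonmin_lower m 2
  have h4 : ((Twin m 2).ncard : ℝ) * (m - 1) ≤ (Nonmin m 2).ncard := by
    have : (((Twin m 2).ncard * (m - 1) : ℕ) : ℝ) ≤ (Nonmin m 2).ncard := by exact_mod_cast h3
    rw [Nat.cast_mul, Nat.cast_sub hm] at this
    simpa using this
  rw [le_div_iff₀ (by positivity)]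
  refine le_trans (le_of_eq ?_) h4
  field_simp
  ring

end Pool.Agent.KS6_31.AM
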