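import Pool.Agent.KS6_31.AM.Asym

set_option autoImplicit false

/-!
The limit of the ratio of the two weights.
-/

namespace Pool.Agent.KS6_31.AM

open Finset Filter Topology

theorem lam_eq (N l0 : ℕ) (i : ℕ) (h : l0 ≤ i) :
    lam N l0 i = ((i:ℝ) * (i - 1) - l0 * (l0 - 1)) / (2 * (N:ℝ)^2) := by
  induction i, h using Nat.le_induction with
  | base => simp [lam]
  | succ i hi ih =>
    rw [lam_succ N l0 i hi, ih]
    rcases Nat.eq_zero_or_pos N with h | h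
    · subst h; simp
    · have : (N:ℝ) ≠ 0 := by positivity
      push_cast
      field_simp
      ring

theorem NN_tendsto (ω : ℝ) (h0 : 0 < ω) (h1 : ω < 1) :
    Tendsto (fun n : ℕ => (n:ℝ) / (NN ω n : ℝ)) atTop (𝓝 ω) := by
  have hlow : Tendsto (fun n : ℕ => ω - ω / (n:ℝ)) atTop (𝓝 ω) := by
    have := (tendsto_const_div_atTop_nhds_zero_nat ω).const_sub ω
    simpa using this
  refine tendsto_of_tendsto_of_tendsto_of_le_of_le' hlow tendsto_const_nhds ?_ ?_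
  · filter_upwards [eventually_ge_atTop 1] with n hn
    have hn0 : (0:ℝ) < n := by exact_mod_cast hn
    have h2 := NN_ge' ω h0 h1 n
    have h3 : (n:ℝ) ≤ NN ω n := by exact_mod_cast h2
    have hN0 : (0:ℝ) < NN ω n := by linarith
    have h4 := NN_le ω h0 n
    have h5 : ω - ω / (NN ω n:ℝ) ≤ (n:ℝ) / (NN ω n : ℝ) := by
      rw [le_div_iff₀ hN0, sub_mul, div_mul_cancel₀ _ hN0.ne']
      linarith
    have h6 : ω / (NN ω n:ℝ) ≤ ω / n := div_le_div_of_nonneg_left h0.le hn0 h3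
    linarith
  · filter_upwards [eventually_ge_atTop 1] with n hn
    have hn0 : (0:ℝ) < n := by exact_mod_cast hn
    have h2 := NN_ge' ω h0 h1 n
    have h3 : (n:ℝ) ≤ NN ω n := by exact_mod_cast h2
    have hN0 : (0:ℝ) < NN ω n := by linarith
    rw [div_le_iff₀ hN0]
    exact NN_ge ω h0 n

theorem inv_NN_tendsto (ω : ℝ) (h0 : 0 < ω) (h1 : ω < 1) :
    Tendsto (fun n : ℕ => 1 / (NN ω n : ℝ)) atTop (𝓝 0) := by
  refine tendsto_of_tendsto_of_tendsto_of_le_of_le' tendsto_const_nhds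
    (tendsto_const_div_atTop_nhds_zero_nat 1) ?_ ?_
  · filter_upwards with n; positivity
  · filter_upwards [eventually_ge_atTop 1] with n hn
    have hn0 : (0:ℝ) < n := by exact_mod_cast hn
    have h3 : (n:ℝ) ≤ NN ω n := by exact_mod_cast NN_ge' ω h0 h1 n
    exact div_le_div_of_nonneg_left (by norm_num) hn0 h3

theorem inv_rt_tendsto : Tendsto (fun n : ℕ => 1 / (rt n : ℝ)) atTop (𝓝 0) :=
  (tendsto_const_div_atTop_nhds_zero_nat 1).comp rt_tendsto

theorem l0_NN_tendsto (ω : ℝ) (h0 : 0 < ω) (h1 : ω < 1) :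
    Tendsto (fun n : ℕ => (((rt n)^20 : ℕ):ℝ) / (NN ω n : ℝ)) atTop (𝓝 0) := by
  refine tendsto_of_tendsto_of_tendsto_of_le_of_le' tendsto_const_nhds inv_rt_tendsto ?_ ?_
  · filter_upwards with n; positivity
  · filter_upwards [eventually_ge_atTop 1, rt_tendsto.eventually_ge_atTop 1] with n hn hr
    have hn0 : (0:ℝ) < n := by exact_mod_cast hn
    have hr0 : (1:ℝ) ≤ rt n := by exact_mod_cast hr
    have h3 : (n:ℝ) ≤ NN ω n := by exact_mod_cast NN_ge' ω h0 h1 n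
    have h4 : (rt n:ℝ)^32 ≤ n := by exact_mod_cast rt_le n
    rw [div_le_div_iff₀ (by linarith) (by linarith)]
    push_cast
    calc (rt n:ℝ)^20 * rt n = (rt n:ℝ)^21 := by ring
      _ ≤ (rt n:ℝ)^32 := pow_le_pow_right₀ hr0 (by norm_num)
      _ ≤ 1 * NN ω n := by linarith

theorem lam_tendsto (ω : ℝ) (h0 : 0 < ω) (h1 : ω < 1) :
    Tendsto (fun n : ℕ => lam (NN ω n) ((rt n)^20) n) atTop (𝓝 (ω^2/2)) := by
  have hA := NN_tendsto ω h0 h1
  have hB := inv_NN_tendsto ω h0 h1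
  have hC := l0_NN_tendsto ω h0 h1
  have h2 := ((((hA.mul hA).sub (hA.mul hB)).sub (hC.mul hC)).add (hC.mul hB)).div_const 2
  have e : (ω * ω - ω * 0 - 0 * 0 + 0 * 0) / 2 = ω^2/2 := by ring
  rw [e] at h2
  refine h2.congr' ?_
  filter_upwards [eventually_ge_atTop 1, rt_tendsto.eventually_ge_atTop 1] with n hn hr
  have hle : (rt n)^20 ≤ n := (Nat.pow_le_pow_right hr (by norm_num)).trans (rt_le n)
  rw [lam_eq _ _ _ hle]
  have h3 : (n:ℝ) ≤ NN ω n := by exact_mod_cast NN_ge' ω h0 h1 n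
  have hn0 : (0:ℝ) < n := by exact_mod_cast hn
  have hN0 : (NN ω n:ℝ) ≠ 0 := by linarith
  field_simp
  ring

theorem err_tendsto (κ : ℝ) (hκ : 0 < κ) :
    Tendsto (fun n : ℕ => Real.exp (-((1/(rt n:ℝ))^2 * (((rt n)^20 : ℕ):ℝ) / 4)) / (κ^((rt n)^17) / 4))
      atTop (𝓝 0) := by
  have h1 : Tendsto (fun x : ℝ => x^17 * (x/4 + Real.log κ)) atTop atTop := by
    apply Tendsto.atTop_mul_atTop₀
    · exact tendsto_pow_atTop (by norm_num)
    · apply tendsto_atTop_add_const_right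
      exact tendsto_id.atTop_div_const (by norm_num)
  have h2 := ((Real.tendsto_exp_neg_atTop_nhds_zero.comp h1).comp rt_tendsto').const_mul 4
  rw [mul_zero] at h2
  refine h2.congr' ?_
  filter_upwards [rt_tendsto.eventually_ge_atTop 1] with n hr
  have hr0 : (rt n:ℝ) ≠ 0 := by
    have : (1:ℝ) ≤ rt n := by exact_mod_cast hr
    linarith
  simp only [Function.comp]
  have e1 : κ^((rt n)^17) = Real.exp ((rt n:ℝ)^17 * Real.log κ) := by
    rw [← Real.exp_log (pow_pos hκ _), Real.log_pow]; push_cast; rfl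
  rw [e1]
  have e2 : Real.exp (-((1/(rt n:ℝ))^2 * (((rt n)^20 : ℕ):ℝ) / 4)) / (Real.exp ((rt n:ℝ)^17 * Real.log κ) / 4)
      = 4 * (Real.exp (-((1/(rt n:ℝ))^2 * (((rt n)^20 : ℕ):ℝ) / 4))
        * (Real.exp ((rt n:ℝ)^17 * Real.log κ))⁻¹) := by
    field_simp
  rw [e2, ← Real.exp_neg, ← Real.exp_add]
  congr 2
  push_cast
  field_simp
  ring

theorem cube_tendsto : Tendsto (fun n : ℕ => 4*(((rt n)^20 : ℕ):ℝ)^3/(n:ℝ)^2) atTop (𝓝 0) := by
  have h1 := inv_rt_tendsto.const_mul 4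
  rw [mul_zero] at h1
  refine tendsto_of_tendsto_of_tendsto_of_le_of_le' tendsto_const_nhds h1 ?_ ?_
  · filter_upwards with n; positivity
  · filter_upwards [eventually_ge_atTop 1, rt_tendsto.eventually_ge_atTop 1] with n hn hr
    have hn0 : (0:ℝ) < n := by exact_mod_cast hn
    have hr0 : (1:ℝ) ≤ rt n := by exact_mod_cast hr
    have h4 : (rt n:ℝ)^32 ≤ n := by exact_mod_cast rt_le n
    rw [mul_one_div, div_le_div_iff₀ (by positivity) (by linarith)]
    push_cast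
    calc 4 * ((rt n:ℝ)^20)^3 * rt n = 4 * (rt n:ℝ)^61 := by ring
      _ ≤ 4 * (rt n:ℝ)^64 := by
        apply mul_le_mul_of_nonneg_left _ (by norm_num)
        exact pow_le_pow_right₀ hr0 (by norm_num)
      _ = 4 * ((rt n:ℝ)^32)^2 := by ring
      _ ≤ 4 * (n:ℝ)^2 := by
        apply mul_le_mul_of_nonneg_left _ (by norm_num)
        exact pow_le_pow_left₀ (by positivity) h4 2

/-- **The limit of the ratio.** -/
theorem ratio_tendsto (ω : ℝ) (h0 : 0 < ω) (h1 : ω < 1) (hω : 1 - ω = Real.exp (-(2*ω))) :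
    Tendsto (fun n : ℕ => V1 (NN ω n) n n 0 1 / V0 (NN ω n) n n 0 1) atTop
      (𝓝 (Real.exp (-(ω^2/2)))) := by
  set κ := ω^2*(1-ω)/4 with hκ
  have hκ0 : 0 < κ := by
    have : 0 < 1 - ω := by linarith
    positivity
  have hlam := lam_tendsto ω h0 h1
  have herr := err_tendsto κ hκ0
  -- the bounds
  have hup : Tendsto (fun n : ℕ => Real.exp (-lam (NN ω n) ((rt n)^20) n + 1/(rt n:ℝ))
      + Real.exp (-((1/(rt n:ℝ))^2 * (((rt n)^20 : ℕ):ℝ) / 4)) / (κ^((rt n)^17) / 4)) atTop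
      (𝓝 (Real.exp (-(ω^2/2)))) := by
    have h2 := ((Real.continuous_exp.tendsto _).comp (hlam.neg.add inv_rt_tendsto)).add herr
    simpa using h2
  have hlow : Tendsto (fun n : ℕ => (Real.exp (-lam (NN ω n) ((rt n)^20) n - 1/(rt n:ℝ)
      - 1/(((rt n)^20 : ℕ):ℝ)) - 4*(((rt n)^20 : ℕ):ℝ)^3/(n:ℝ)^2)
      - Real.exp (-((1/(rt n:ℝ))^2 * (((rt n)^20 : ℕ):ℝ) / 4)) / (κ^((rt n)^17) / 4)) atTop
      (𝓝 (Real.exp (-(ω^2/2)))) := by
    have h3 : Tendsto (fun n : ℕ => 1/(((rt n)^20 : ℕ):ℝ)) atTop (𝓝 0) := by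
      have := (tendsto_const_div_atTop_nhds_zero_nat (1:ℝ)).comp
        ((tendsto_pow_atTop (by norm_num : (20:ℕ) ≠ 0)).comp rt_tendsto)
      exact this
    have h2 := (((Real.continuous_exp.tendsto _).comp
      ((hlam.neg.sub inv_rt_tendsto).sub h3)).sub cube_tendsto).sub herr
    simpa using h2
  refine tendsto_of_tendsto_of_tendsto_of_le_of_le' hlow hup ?_ ?_
  · filter_upwards [V0_lower ω h0 h1 hω, eventually_ge_atTop 1, rt_tendsto.eventually_ge_atTop 1]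
      with n hV hn hr
    have hrR : (1:ℝ) ≤ rt n := by exact_mod_cast hr
    have hNn := NN_ge' ω h0 h1 n
    have hle : (rt n)^20 ≤ n := (Nat.pow_le_pow_right hr (by norm_num)).trans (rt_le n)
    have hκt : 0 < κ^((rt n)^17) / 4 := by positivity
    have hV0 : 0 < V0 (NN ω n) n n 0 1 := lt_of_lt_of_le hκt hV
    have h2 := (compare (NN ω n) n ((rt n)^20) (by omega) hNn (Nat.one_le_pow _ _ hr) hle (1/(rt n:ℝ))
      (by positivity) (by rw [div_le_iff₀ (by linarith)]; linarith)).2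
    rw [le_div_iff₀ hV0]
    refine le_trans ?_ h2
    rw [sub_mul]
    apply sub_le_sub_left
    calc Real.exp (-((1/(rt n:ℝ))^2 * (((rt n)^20 : ℕ):ℝ) / 4))
        = Real.exp (-((1/(rt n:ℝ))^2 * (((rt n)^20 : ℕ):ℝ) / 4)) / (κ^((rt n)^17) / 4)
          * (κ^((rt n)^17) / 4) := by rw [div_mul_cancel₀ _ hκt.ne']
      _ ≤ _ := mul_le_mul_of_nonneg_left hV (by positivity)
  · filter_upwards [V0_lower ω h0 h1 hω, eventually_ge_atTop 1, rt_tendsto.eventually_ge_atTop 1]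
      with n hV hn hr
    have hrR : (1:ℝ) ≤ rt n := by exact_mod_cast hr
    have hNn := NN_ge' ω h0 h1 n
    have hle : (rt n)^20 ≤ n := (Nat.pow_le_pow_right hr (by norm_num)).trans (rt_le n)
    have hκt : 0 < κ^((rt n)^17) / 4 := by positivity
    have hV0 : 0 < V0 (NN ω n) n n 0 1 := lt_of_lt_of_le hκt hV
    have h2 := (compare (NN ω n) n ((rt n)^20) (by omega) hNn (Nat.one_le_pow _ _ hr) hle (1/(rt n:ℝ))
      (by positivity) (by rw [div_le_iff₀ (by linarith)]; linarith)).1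
    rw [div_le_iff₀ hV0]
    refine h2.trans ?_
    rw [add_mul]
    apply add_le_add_right
    calc Real.exp (-((1/(rt n:ℝ))^2 * (((rt n)^20 : ℕ):ℝ) / 4))
        = Real.exp (-((1/(rt n:ℝ))^2 * (((rt n)^20 : ℕ):ℝ) / 4)) / (κ^((rt n)^17) / 4)
          * (κ^((rt n)^17) / 4) := by rw [div_mul_cancel₀ _ hκt.ne']
      _ ≤ _ := mul_le_mul_of_nonneg_left hV (by positivity)

/-- the ratio in terms of the weights of the restricted growth strings. -/
theorem Q_ratio (ω : ℝ) (h0 : 0 < ω) (h1 : ω < 1) (n : ℕ) (hn : 1 ≤ n) :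
    V1 (NN ω n) n n 0 1 / V0 (NN ω n) n n 0 1
      = (Q n (fun i => i) n 0 1 : ℝ) / (Q n (fun _ => 0) n 0 1 : ℝ) := by
  have hNn := NN_ge' ω h0 h1 n
  have hN1 : 1 ≤ NN ω n := by omega
  have e1 := V_eq_Q (NN ω n) n hN1 hNn (fun i => i) (fun _ => le_rfl) n 0 1 hN1
  have e0 := V_eq_Q (NN ω n) n hN1 hNn (fun _ => 0) (fun _ => Nat.zero_le _) n 0 1 hN1
  have hN0 : (NN ω n : ℝ) ≠ 0 := by
    have : (1:ℝ) ≤ NN ω n := by exact_mod_cast hN1
    linarith
  set A : ℝ := (NN ω n:ℝ)^(2*n) * ((NN ω n - n).factorial : ℝ) with hA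
  have hA0 : A ≠ 0 := by
    rw [hA]
    exact mul_ne_zero (pow_ne_zero _ hN0) (by exact_mod_cast (Nat.factorial_pos _).ne')
  set B : ℝ := ((NN ω n - 1).factorial : ℝ) with hB
  have hB0 : B ≠ 0 := by
    rw [hB]; exact_mod_cast (Nat.factorial_pos _).ne'
  have e1' : V1 (NN ω n) n n 0 1 = B * (Q n (fun i => i) n 0 1 : ℝ) / A := by
    rw [eq_div_iff hA0, hA, ← mul_assoc]; exact e1
  have e0' : V0 (NN ω n) n n 0 1 = B * (Q n (fun _ => 0) n 0 1 : ℝ) / A := by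
    rw [eq_div_iff hA0, hA, ← mul_assoc]; exact e0
  rw [e1', e0', div_div_div_cancel_right₀ hA0, mul_div_mul_left _ _ hB0]

theorem Q_ratio_tendsto (ω : ℝ) (h0 : 0 < ω) (h1 : ω < 1) (hω : 1 - ω = Real.exp (-(2*ω))) :
    Tendsto (fun n : ℕ => (Q n (fun i => i) n 0 1 : ℝ) / (Q n (fun _ => 0) n 0 1 : ℝ)) atTop
      (𝓝 (Real.exp (-(ω^2/2)))) := by
  refine (ratio_tendsto ω h0 h1 hω).congr' ?_
  filter_upwards [eventually_ge_atTop 1] with n hn
  exact Q_ratio ω h0 h1 n hn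

/-- the constant exists -/
theorem exists_omega : ∃ ω : ℝ, 0 < ω ∧ ω < 1 ∧ 1 - ω = Real.exp (-(2*ω)) := by
  have hcont : Continuous (fun x : ℝ => 1 - x - Real.exp (-(2*x))) := by fun_prop
  have h1 : (1:ℝ) - (1/2) - Real.exp (-(2*(1/2))) ≥ 0 := by
    have : Real.exp (-(2*(1/2:ℝ))) ≤ 1/2 := by
      have e : (-(2*(1/2:ℝ))) = -1 := by norm_num
      rw [e, Real.exp_neg]
      have := Real.add_one_le_exp (1:ℝ)
      rw [inv_le_comm₀ (Real.exp_pos _) (by norm_num)]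
      linarith
    linarith
  have h2 : (1:ℝ) - 1 - Real.exp (-(2*1)) < 0 := by
    have := Real.exp_pos (-(2*(1:ℝ)))
    linarith
  obtain ⟨x, hx, hx2⟩ := intermediate_value_Icc' (by norm_num : (1/2:ℝ) ≤ 1) hcont.continuousOn
    (show (0:ℝ) ∈ Set.Icc ((1:ℝ) - 1 - Real.exp (-(2*1))) ((1:ℝ) - (1/2) - Real.exp (-(2*(1/2))))
      from ⟨h2.le, h1⟩)
  refine ⟨x, by linarith [hx.1], ?_, by simp only at hx2; linarith⟩
  rcases lt_or_eq_of_le hx.2 with h | h
  · exact h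
  · subst h
    simp only at hx2
    linarith

end Pool.Agent.KS6_31.AM
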